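import Pool.Agent.P.MP_c1ff4a_lc.FS

/-! Arrays and sweeps. -/

set_option autoImplicit false

open Classical

noncomputable section

namespace Pool.Agent.P.MP_c1ff4a_lc

variable {σ Γ : Type}

theorem OLCA.length_cfg (N : OLCA σ) (w : List σ) (t : ℕ) : (N.cfg w t).length = w.length := by
  induction t with
  | zero => simp [OLCA.cfg]
  | succ t ih => simp [OLCA.cfg, ih]

theorem OLCA.not_acc_nil (N : OLCA σ) (t : ℕ) : ¬ N.AccAt [] t := by
  rintro ⟨q, -, h⟩
  rw [List.length_eq_zero_iff.1 (N.length_cfg [] t)] at h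
  simp at h

lemma Conv_zip {Q : Type} (δ : Option Q → Q → Q) (q : Q) (l : List Q) : ∀ o : Option Q,
    List.zipWith δ (o :: (l ++ [q]).map some) (l ++ [q]) =
      List.zipWith δ (o :: l.map some) l ++ [δ (l.getLast?.or o) q] := by
  induction l with
  | nil => simp
  | cons a l ih =>
    intro o
    have := ih (some a)
    simp only [List.cons_append, List.map_cons, List.zipWith_cons_cons] at this ⊢
    rw [this, List.getLast?_cons]
    cases l.getLast? <;> simp

theorem OLCA.cfg_snoc (N : OLCA σ) (w : List σ) (a : σ) (t : ℕ) : N.cfg (w ++ [a]) t =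
    N.cfg w t ++ [sc (N.ι a) (fun s x => N.δ x s) (fun s => (N.cfg w s).getLast?) t] := by
  induction t with
  | zero => simp [OLCA.cfg, sc]
  | succ t ih => rw [OLCA.cfg, ih, Conv_zip, Option.or_none]; rfl

lemma OLIA.step_map (M : OLIA σ) (x : Option σ) (f g : ℕ → M.Q) (h0 : g 0 = M.δ₁ x (f 0))
    (h : ∀ i, g (i + 1) = M.δ (f i) (f (i + 1))) (n : ℕ) :
    M.step x ((List.range n).map f) = (List.range n).map g := by
  cases n with
  | zero => rfl
  | succ n =>
    rw [List.range_succ_eq_map, List.map_cons, List.map_cons, OLIA.step, h0]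
    congr 1
    refine List.ext_getElem (by simp) fun i h1 h2 => ?_
    cases i <;> simp [h]

lemma OLIA.cfg_eq (M : OLIA σ) (w : List σ) (f : ℕ → ℕ → M.Q) (h : ∀ i, f 0 i = M.q₀)
    (h0 : ∀ t, f (t + 1) 0 = M.δ₁ w[t]? (f t 0))
    (h1 : ∀ t i, f (t + 1) (i + 1) = M.δ (f t i) (f t (i + 1))) (t : ℕ) :
    M.cfg w t = (List.range w.length).map (f t) := by
  induction t with
  | zero => rw [funext h]; simp [OLIA.cfg]
  | succ t ih => rw [OLIA.cfg, ih, M.step_map _ _ _ (h0 t) (h1 t)]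

lemma OLIA.acc_iff (M : OLIA σ) {w : List σ} {f : ℕ → M.Q} {t k : ℕ} (hk : w.length = k + 1)
    (h : M.cfg w t = (List.range w.length).map f) : M.AccAt w t ↔ f k ∈ M.F := by
  simp [OLIA.AccAt, h, hk, List.range_succ]

theorem OLIA.not_acc_nil (M : OLIA σ) (t : ℕ) : ¬ M.AccAt [] t := by
  have : ∀ t, M.cfg [] t = [] := fun t => by
    induction t with
    | zero => rfl
    | succ t ih => rw [OLIA.cfg, ih]; rfl
  rintro ⟨q, -, h⟩
  simp [this] at h

/-- an `OLCA` as a family of sweeps -/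
theorem OLCA.sweep (N : OLCA σ) : ∃ Φ : σ → (ℕ → Option N.Q) → ℕ → Option N.Q, (∀ a, FS (Φ a)) ∧
    ∀ w t, N.AccAt w t ↔ run Φ (fun _ => none) w t ∈ some '' N.F := by
  have := N.fin
  refine ⟨fun a τ t => some (sc (N.ι a) (fun s x => N.δ x s) τ t),
    fun a => ((FS.pt id).sc _ _).map some, fun w t => ?_⟩
  have : ∀ w : List σ, run (fun a τ t => some (sc (N.ι a) (fun s x => N.δ x s) τ t))
      (fun _ => none) w = fun s => (N.cfg w s).getLast? := fun w => by
    induction w using List.reverseRecOn with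
    | nil => exact funext fun s => by rw [List.length_eq_zero_iff.1 (N.length_cfg [] s)]; rfl
    | append_singleton w a ih => funext s; rw [run_snoc, ih, N.cfg_snoc]; simp
  rw [this]
  exact exists_congr fun q => and_congr_right fun _ => eq_comm

/-- an `OLIA` as a first sweep followed by equal sweeps -/
theorem OLIA.sweep (M : OLIA σ) : ∃ (Ψ₁ : (ℕ → Option σ) → ℕ → M.Q) (Ψ : (ℕ → M.Q) → ℕ → M.Q),
    FS Ψ₁ ∧ FS Ψ ∧ (∀ τ k t, t ≤ k → Ψ^[k] (Ψ₁ τ) t = M.q₀) ∧
    ∀ w k t, w.length = k + 1 → (M.AccAt w t ↔ Ψ^[k] (Ψ₁ fun s => w[s]?) t ∈ M.F) := by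
  have := M.fin
  refine ⟨sc M.q₀ fun s x => M.δ₁ x s, sc M.q₀ fun s x => M.δ x s, (FS.pt id).sc _ _,
    (FS.pt id).sc _ _, fun τ k => ?_, fun w k t hk => M.acc_iff (f := fun i =>
      (sc M.q₀ fun s x => M.δ x s)^[i] (sc M.q₀ (fun s x => M.δ₁ x s) fun s => w[s]?) t) hk (M.cfg_eq w
      (fun t i => (sc M.q₀ fun s x => M.δ x s)^[i] (sc M.q₀ (fun s x => M.δ₁ x s) fun s => w[s]?) t)
      (fun i => ?_) (fun _ => rfl) (fun t i => ?_) t)⟩
  · induction k with
    | zero => exact fun t h => by rw [Nat.le_zero.1 h]; rfl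
    | succ k ih =>
      intro t h
      rw [Function.iterate_succ_apply']
      induction t with
      | zero => rfl
      | succ t it => rw [sc, it (by omega), ih t (by omega), M.quiet]
  · cases i with
    | zero => rfl
    | succ i => rw [Function.iterate_succ_apply']; rfl
  · simp only [Function.iterate_succ_apply', sc]

/-- the first acceptance happens before a configuration repeats -/
theorem OLCA.first (N : OLCA σ) {w : List σ} {t : ℕ} (h : N.AccAt w t) :
    ∃ t₀ ≤ t, t₀ < Nat.card N.Q ^ w.length ∧ N.AccAt w t₀ := by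
  have := N.fin
  have hh : ∃ t, N.AccAt w t := ⟨t, h⟩
  have e : ∀ s s' d, N.cfg w s = N.cfg w s' → N.cfg w (s + d) = N.cfg w (s' + d) :=
    fun s s' d a => by
      induction d with
      | zero => exact a
      | succ d ih => rw [← add_assoc, ← add_assoc, OLCA.cfg, OLCA.cfg, ih]
  have k : ∀ s s', s < s' → s' ≤ Nat.find hh → N.cfg w s ≠ N.cfg w s' := fun s s' a b c => by
    have := e s s' (Nat.find hh - s') c
    rw [Nat.add_sub_cancel' b] at this
    refine Nat.find_min hh (m := s + (Nat.find hh - s')) (by omega) ?_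
    rw [OLCA.AccAt, this]
    exact Nat.find_spec hh
  refine ⟨_, Nat.find_min' hh h, ?_, Nat.find_spec hh⟩
  have := Fintype.ofFinite N.Q
  have := Fintype.card_le_of_injective (β := List.Vector N.Q w.length)
    (fun s : Fin (Nat.find hh + 1) => ⟨N.cfg w s, N.length_cfg w s⟩) fun s s' a => by
      have a := congrArg Subtype.val a
      rcases lt_trichotomy s s' with b | b | b
      · exact absurd a (k _ _ b (by omega))
      · exact b
      · exact absurd a.symm (k _ _ b (by omega))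
  rwa [card_vector, Fintype.card_fin, ← Nat.card_eq_fintype_card] at this

/-- renaming the letters -/
theorem OLCA.comap (N : OLCA Γ) (f : σ ↪ Γ) :
    ∃ N' : OLCA σ, ∀ w t, N'.AccAt w t ↔ N.AccAt (w.map f) t := by
  refine ⟨⟨N.Q, N.fin, f.trans N.ι, N.δ, N.F⟩, fun w t => ?_⟩
  have : OLCA.cfg ⟨N.Q, N.fin, f.trans N.ι, N.δ, N.F⟩ w t = N.cfg (w.map f) t := by
    induction t with
    | zero => simp [OLCA.cfg]
    | succ t ih => rw [OLCA.cfg, OLCA.cfg, ih]
  rw [OLCA.AccAt, this]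
  rfl

/-- the trivial case -/
theorem OLIA.trivial [Finite σ] (M : OLIA σ) (h : M.q₀ ∈ M.F) :
    ∃ N : OLCA σ, N.lang = M.lang ∧ N.Time fun _ => 0 := by
  obtain ⟨N, hN⟩ : ∃ N : OLCA σ, ∀ w, w ≠ [] → N.AccAt w 0 :=
    ⟨⟨σ, ‹_›, Function.Embedding.refl _, fun _ q => q, Set.univ⟩, fun w hw =>
      ⟨w.getLast hw, Set.mem_univ _, by simp [OLCA.cfg, List.getLast?_eq_some_getLast hw]⟩⟩
  have a : ∀ w ∈ N.lang, w ≠ [] := fun w ⟨t, h⟩ e => N.not_acc_nil t (e ▸ h)
  refine ⟨N, Set.ext fun w => ⟨fun b => ⟨0, M.q₀, h, ?_⟩, fun ⟨t, b⟩ =>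
    ⟨0, hN w fun e => M.not_acc_nil t (e ▸ b)⟩⟩, fun w b => ⟨0, le_rfl, hN w (a w b)⟩⟩
  simp [OLIA.cfg, List.getLast?_replicate, a w b]

theorem OLIA.le_of_acc (M : OLIA σ) (h : M.q₀ ∉ M.F) {w : List σ} {t : ℕ} (ht : M.AccAt w t) :
    w.length ≤ t := by
  obtain ⟨Ψ₁, Ψ, -, -, a, b⟩ := M.sweep
  by_contra c
  obtain ⟨k, hk⟩ : ∃ k, w.length = k + 1 := ⟨w.length - 1, by omega⟩
  exact h (a _ k t (by omega) ▸ (b w k t hk).1 ht)

end Pool.Agent.P.MP_c1ff4a_lc
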