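import Pool.Agent.P.MP_c1ff4a_lc.CircDefs
import Pool.Agent.P.MP_c1ff4a_lc.Conv

/-! Shallow circuits for a short one-way array. -/

set_option autoImplicit false

open Classical

noncomputable section

namespace Pool.Agent.P.MP_c1ff4a_lc

/-- a list that grows by one entry for each gate -/
def gr {α : Type} (f : List α → ℕ × ℕ → α) (l : List α) (G : List (ℕ × ℕ)) : List α :=
  G.foldl (fun l g => l ++ [f l g]) l

lemma gr_length {α : Type} (f : List α → ℕ × ℕ → α) (G : List (ℕ × ℕ)) :
    ∀ l : List α, (gr f l G).length = l.length + G.length := by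
  induction G with
  | nil => simp [gr]
  | cons g G ih =>
    intro l
    have := ih (l ++ [f l g])
    simp only [gr, List.foldl_cons, List.length_append, List.length_cons, List.length_nil] at this ⊢
    omega

lemma gr_getD {α : Type} (f : List α → ℕ × ℕ → α) (G : List (ℕ × ℕ)) (a : α) (i : ℕ) :
    ∀ l : List α, i < l.length → (gr f l G).getD i a = l.getD i a := by
  induction G with
  | nil => simp [gr]
  | cons g G ih =>
    intro l hl
    have := ih (l ++ [f l g]) (by simp; omega)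
    rw [List.getD_append _ _ _ _ hl] at this
    exact this

lemma wires_length (G : List (ℕ × ℕ)) (x : List Bool) :
    (wires G x).length = x.length + G.length := gr_length _ G x

lemma levels_length (G : List (ℕ × ℕ)) (m : ℕ) : (levels G m).length = m + G.length :=
  (gr_length _ G _).trans (by simp)

lemma wires_snoc (G : List (ℕ × ℕ)) (g : ℕ × ℕ) (x : List Bool) : wires (G ++ [g]) x =
    wires G x ++ [!((wires G x).getD g.1 false && (wires G x).getD g.2 false)] := by
  simp [wires]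

lemma levels_snoc (G : List (ℕ × ℕ)) (g : ℕ × ℕ) (m : ℕ) : levels (G ++ [g]) m =
    levels G m ++ [max ((levels G m).getD g.1 0) ((levels G m).getD g.2 0) + 1] := by
  simp [levels]

/-- some wire of depth at most `d` decides `P` -/
def Av (m : ℕ) (G : List (ℕ × ℕ)) (P : List Bool → Prop) (d : ℕ) : Prop :=
  ∃ i < m + G.length, (levels G m).getD i 0 ≤ d ∧
    ∀ x : List Bool, x.length = m → ((wires G x).getD i false = true ↔ P x)

variable {m d : ℕ} {G : List (ℕ × ℕ)} {P Q : List Bool → Prop}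

lemma Av.ext (h : Av m G P d) (H : List (ℕ × ℕ)) : Av m (G ++ H) P d := by
  obtain ⟨i, h1, h2, h3⟩ := h
  refine ⟨i, by simp; omega, ?_, fun x hx => ?_⟩
  · rw [levels, List.foldl_append]
    exact (gr_getD _ H 0 i _ (by rw [← levels, levels_length]; exact h1)).trans_le h2
  · rw [wires, List.foldl_append, ← h3 x hx]
    exact iff_of_eq (congrArg (· = true)
      (gr_getD _ H false i _ (by rw [← wires, wires_length, hx]; exact h1)))

lemma Av.mono (h : Av m G P d) {d' : ℕ} (hd : d ≤ d')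
    (e : ∀ x : List Bool, x.length = m → (P x ↔ Q x)) : Av m G Q d' := by
  obtain ⟨i, h1, h2, h3⟩ := h
  exact ⟨i, h1, h2.trans hd, fun x hx => (h3 x hx).trans (e x hx)⟩

lemma Av.nand (h : Av m G P d) (k : Av m G Q d) :
    ∃ g, Av m (G ++ [g]) (fun x => ¬ (P x ∧ Q x)) (d + 1) := by
  obtain ⟨i, -, h2, h3⟩ := h
  obtain ⟨j, -, k2, k3⟩ := k
  refine ⟨(i, j), m + G.length, by simp, ?_, fun x hx => ?_⟩
  · rw [levels_snoc, List.getD_append_right _ _ _ _ (levels_length G m).le, levels_length]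
    simp only [Nat.sub_self, List.getD_cons_zero]
    omega
  · have e : (wires G x).length = m + G.length := by rw [wires_length, hx]
    beta_reduce
    rw [wires_snoc, List.getD_append_right _ _ _ _ e.le, e, ← h3 x hx, ← k3 x hx]
    generalize (wires G x).getD i false = a
    generalize (wires G x).getD j false = b
    cases a <;> cases b <;> simp

lemma Av.top (m : ℕ) (G : List (ℕ × ℕ)) : ∃ g, Av m (G ++ [g]) (fun _ => True) 1 := by
  refine ⟨(m + G.length, m + G.length), m + G.length, by simp, ?_, fun x hx => ?_⟩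
  · rw [levels_snoc, List.getD_append_right _ _ _ _ (levels_length G m).le, levels_length,
      List.getD_eq_default _ _ (levels_length G m).le]
    simp
  · have e : (wires G x).length = m + G.length := by rw [wires_length, hx]
    rw [wires_snoc, List.getD_append_right _ _ _ _ e.le, e, List.getD_eq_default _ _ e.le]
    simp

lemma Av.input {i : ℕ} (hi : i < m) (G : List (ℕ × ℕ)) :
    Av m G (fun x => x.getD i false = true) 0 := by
  have : Av m [] (fun x => x.getD i false = true) 0 :=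
    ⟨i, by simpa using hi, by simp [levels, hi], fun x _ => by simp [wires]⟩
  simpa using this.ext G

lemma Av.dnf {ι : Type} {R S : ι → List Bool → Prop} (l : List ι) (h : ∀ p, Av m G (R p) d)
    (k : ∀ p, Av m G (S p) d) : ∃ H : List (ℕ × ℕ), H.length ≤ 3 * l.length + 2 ∧
      Av m (G ++ H) (fun x => ∃ p ∈ l, R p x ∧ S p x) (d + 2 * l.length + 2) := by
  induction l with
  | nil =>
    obtain ⟨g, h1⟩ := Av.top m G
    obtain ⟨g', h2⟩ := h1.nand h1
    exact ⟨[g, g'], by simp, by simpa using h2.mono (by omega) (fun _ _ => by simp)⟩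
  | cons p l ih =>
    obtain ⟨H, h1, h2⟩ := ih
    obtain ⟨g₁, h3⟩ := h2.nand h2
    obtain ⟨g₂, h4⟩ := (((h p).ext H).ext [g₁]).nand (((k p).ext H).ext [g₁])
    obtain ⟨g₃, h5⟩ := (h3.ext [g₂]).nand (h4.mono (by omega) fun _ _ => Iff.rfl)
    refine ⟨H ++ [g₁] ++ [g₂] ++ [g₃], by simp; omega, ?_⟩
    rw [← List.append_assoc, ← List.append_assoc, ← List.append_assoc]
    refine h5.mono (by simp; omega) fun x _ => ?_
    simp only [List.mem_cons, exists_eq_or_imp, and_self]
    rw [not_and_or, not_not, not_not, or_comm]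

lemma batch {ι : Type} {K : ℕ} {I : List (ℕ × ℕ) → Prop} {R : ι → List (ℕ × ℕ) → Prop}
    (hI : ∀ G H, I G → I (G ++ H)) (hR : ∀ i G H, R i G → R i (G ++ H)) (l : List ι)
    (h : ∀ i ∈ l, ∀ G, I G → ∃ H : List (ℕ × ℕ), H.length ≤ K ∧ R i (G ++ H)) (hG : I G) :
    ∃ H : List (ℕ × ℕ), H.length ≤ K * l.length ∧ ∀ i ∈ l, R i (G ++ H) := by
  induction l with
  | nil => exact ⟨[], by simp⟩
  | cons a l ih =>
    obtain ⟨H, h1, h2⟩ := ih fun i hi => h i (List.mem_cons_of_mem _ hi)
    obtain ⟨H', h3, h4⟩ := h a List.mem_cons_self _ (hI G H hG)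
    refine ⟨H ++ H', by rw [List.length_append, List.length_cons, mul_add]; omega, fun i hi => ?_⟩
    rw [← List.append_assoc]
    rcases List.mem_cons.1 hi with rfl | hi
    · exact h4
    · exact hR _ _ _ (h2 i hi)

/-- all fibres of `F` are decided -/
def AvQ {A : Type} (m : ℕ) (G : List (ℕ × ℕ)) (F : List Bool → A) (d : ℕ) : Prop :=
  ∀ a, Av m G (fun x => F x = a) d

lemma AvQ.ext {A : Type} {F : List Bool → A} (h : AvQ m G F d) (H : List (ℕ × ℕ)) :
    AvQ m (G ++ H) F d := fun a => (h a).ext H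

lemma AvQ.mono {A : Type} {F F' : List Bool → A} (h : AvQ m G F d) {d' : ℕ} (hd : d ≤ d')
    (e : ∀ x : List Bool, x.length = m → F x = F' x) : AvQ m G F' d' :=
  fun a => (h a).mono hd fun x hx => by rw [e x hx]

lemma op2 (A B C : Type) [Finite A] [Finite B] [Finite C] : ∃ K : ℕ, ∀ (φ : A → B → C) (m d : ℕ)
    (G : List (ℕ × ℕ)) (F₁ : List Bool → A) (F₂ : List Bool → B), AvQ m G F₁ d → AvQ m G F₂ d →
    ∃ H : List (ℕ × ℕ), H.length ≤ K ∧ AvQ m (G ++ H) (fun x => φ (F₁ x) (F₂ x)) (d + K) := by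
  have := Fintype.ofFinite (A × B)
  have := Fintype.ofFinite C
  obtain ⟨n, hn⟩ : ∃ n, n = (Finset.univ : Finset (A × B)).toList.length := ⟨_, rfl⟩
  refine ⟨(3 * n + 2) * ((Finset.univ : Finset C).toList.length + 1),
    fun φ m d G F₁ F₂ h₁ h₂ => ?_⟩
  obtain ⟨H, h3, h4⟩ := batch (K := 3 * n + 2) (I := fun G => AvQ m G F₁ d ∧ AvQ m G F₂ d)
    (R := fun c G => Av m G (fun x => φ (F₁ x) (F₂ x) = c) (d + (3 * n + 2)))
    (fun G H h => ⟨h.1.ext H, h.2.ext H⟩) (fun _ G H h => h.ext H)
    (Finset.univ : Finset C).toList (fun c _ G h => by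
      have hl : ((Finset.univ : Finset (A × B)).toList.filter fun p => φ p.1 p.2 = c).length ≤ n :=
        hn ▸ List.length_filter_le _ _
      obtain ⟨H, h1, h2⟩ := Av.dnf
        ((Finset.univ : Finset (A × B)).toList.filter fun p => φ p.1 p.2 = c)
        (fun p => h.1 p.1) (fun p => h.2 p.2)
      refine ⟨H, by omega, h2.mono (by omega) fun x _ => ⟨?_, fun e => ?_⟩⟩
      · rintro ⟨p, hp, e1, e2⟩
        rw [e1, e2]
        simpa using hp
      · exact ⟨(F₁ x, F₂ x), by simpa using e, rfl, rfl⟩) ⟨h₁, h₂⟩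
  exact ⟨H, h3.trans (Nat.mul_le_mul_left _ (by omega)), fun c =>
    (h4 c (by simp)).mono (Nat.add_le_add_left (Nat.le_mul_of_pos_right _ (by omega)) _)
      fun _ _ => Iff.rfl⟩

lemma sc_add {S A : Type} (s : S) (nx : S → A → S) (τ : ℕ → A) (a n : ℕ) :
    sc s nx τ (a + n) = sc (sc s nx τ a) nx (fun u => τ (a + u)) n := by
  induction n with
  | zero => rfl
  | succ n ih => rw [← add_assoc, sc, ih, sc]

/-- parallel computation of all states of a finite automaton -/
lemma scan {S A : Type} [Finite S] [Finite A] (nx : S → A → S) : ∃ K : ℕ, ∀ (m d T L : ℕ)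
    (G : List (ℕ × ℕ)) (s₀ : List Bool → S) (τ : List Bool → ℕ → A), T ≤ 2 ^ L →
    AvQ m G s₀ d → (∀ t < T, AvQ m G (fun x => τ x t) d) →
    ∃ H : List (ℕ × ℕ), H.length ≤ K * (T + 1) * (L + 2) ∧
      ∀ t ≤ T, AvQ m (G ++ H) (fun x => sc (s₀ x) nx (τ x) t) (d + K * (L + 2)) := by
  obtain ⟨K₀, h₀⟩ := op2 S S (S → S)
  obtain ⟨K₁, h₁⟩ := op2 A A (S → S)
  obtain ⟨K₂, h₂⟩ := op2 (S → S) (S → S) (S → S)
  obtain ⟨K₃, h₃⟩ := op2 (S → S) S S
  obtain ⟨K, hK⟩ : ∃ K, K = K₀ + K₁ + K₂ + K₃ := ⟨_, rfl⟩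
  refine ⟨K, fun m d T L G s₀ τ hT hs hτ => ?_⟩
  have key : ∀ j, ∃ H : List (ℕ × ℕ), H.length ≤ K * (T + 1) * (j + 1) ∧ ∀ t ≤ T, AvQ m (G ++ H)
      (fun x s => sc s nx (fun u => τ x (t - 2 ^ j + u)) (t - (t - 2 ^ j))) (d + K * (j + 1)) := by
    intro j
    induction j with
    | zero =>
      obtain ⟨H, h1, h2⟩ := batch (K := K)
        (I := fun G => AvQ m G s₀ d ∧ ∀ t < T, AvQ m G (fun x => τ x t) d)
        (R := fun t G => AvQ m G
          (fun x s => sc s nx (fun u => τ x (t - 2 ^ 0 + u)) (t - (t - 2 ^ 0))) (d + K * (0 + 1)))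
        (fun G H h => ⟨h.1.ext H, fun t ht => (h.2 t ht).ext H⟩) (fun _ G H h => h.ext H)
        (List.range (T + 1)) (fun t ht G h => by
          rcases t with _ | t
          · obtain ⟨H, h1, h2⟩ := h₀ (fun _ _ s => s) m d G s₀ s₀ h.1 h.1
            exact ⟨H, by omega, h2.mono (by omega) fun x _ => by simp [sc]⟩
          · have := h.2 t (by simpa using ht)
            obtain ⟨H, h1, h2⟩ := h₁ (fun a _ s => nx s a) m d G _ _ this this
            exact ⟨H, by omega, h2.mono (by omega) fun x _ => by simp [sc]⟩) ⟨hs, hτ⟩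
      exact ⟨H, by simpa using h1, fun t ht => h2 t (by simp; omega)⟩
    | succ j ih =>
      obtain ⟨H, h1, h2⟩ := ih
      obtain ⟨H', h3, h4⟩ := batch (K := K)
        (I := fun G => ∀ t ≤ T, AvQ m G
          (fun x s => sc s nx (fun u => τ x (t - 2 ^ j + u)) (t - (t - 2 ^ j))) (d + K * (j + 1)))
        (R := fun t G => AvQ m G (fun x s => sc s nx (fun u => τ x (t - 2 ^ (j + 1) + u))
          (t - (t - 2 ^ (j + 1)))) (d + K * (j + 1 + 1)))
        (fun G H h t ht => (h t ht).ext H) (fun _ G H h => h.ext H)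
        (List.range (T + 1)) (fun t ht G h => by
          obtain ⟨H, h1, h2⟩ := h₂ (fun f g s => f (g s)) m _ G _ _ (h t (by simp at ht; omega))
            (h (t - 2 ^ j) ((Nat.sub_le _ _).trans (by simp at ht; omega)))
          refine ⟨H, by omega, h2.mono (by rw [mul_add K (j + 1)]; omega) fun x _ => ?_⟩
          funext s
          have e1 : t - 2 ^ j - 2 ^ j = t - 2 ^ (j + 1) := by rw [pow_succ]; omega
          have e2 : t - (t - 2 ^ (j + 1))
              = (t - 2 ^ j - (t - 2 ^ (j + 1))) + (t - (t - 2 ^ j)) := by omega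
          have e3 : ∀ u, t - 2 ^ (j + 1) + (t - 2 ^ j - (t - 2 ^ (j + 1)) + u) = t - 2 ^ j + u :=
            fun u => by rw [← add_assoc, ← e1, Nat.add_sub_cancel' (Nat.sub_le _ _)]
          rw [e1, e2, sc_add]
          simp only [e3]) h2
      refine ⟨H ++ H', ?_, fun t ht => ?_⟩
      · rw [List.length_append, mul_add _ (j + 1)]
        simp only [List.length_range] at h3
        omega
      · rw [← List.append_assoc]
        exact h4 t (by simp; omega)
  obtain ⟨H, h1, h2⟩ := key L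
  obtain ⟨H', h3, h4⟩ := batch (K := K)
    (I := fun G => AvQ m G s₀ d ∧ ∀ t ≤ T, AvQ m G
      (fun x s => sc s nx (fun u => τ x (t - 2 ^ L + u)) (t - (t - 2 ^ L))) (d + K * (L + 1)))
    (R := fun t G => AvQ m G (fun x => sc (s₀ x) nx (τ x) t) (d + K * (L + 2)))
    (fun G H h => ⟨h.1.ext H, fun t ht => (h.2 t ht).ext H⟩) (fun _ G H h => h.ext H)
    (List.range (T + 1)) (fun t ht G h => by
      have ht' : t ≤ T := by simp at ht; omega
      obtain ⟨H, h1, h2⟩ := h₃ (fun f s => f s) m _ G _ _ (h.2 t ht')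
        (h.1.mono (by omega) fun _ _ => rfl)
      refine ⟨H, by omega, h2.mono (by rw [mul_add K L, mul_add K L]; omega) fun x _ => ?_⟩
      simp [show t - 2 ^ L = 0 by omega]) ⟨hs.ext H, h2⟩
  refine ⟨H ++ H', ?_, fun t ht => ?_⟩
  · rw [List.length_append, show L + 2 = L + 1 + 1 by ring, mul_add _ (L + 1)]
    simp only [List.length_range] at h3
    omega
  · rw [← List.append_assoc]
    exact h4 t (by simp; omega)

end Pool.Agent.P.MP_c1ff4a_lc
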