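import Pool.Agent.P.MP_c1ff4a_lc.Conv

/-! Sweeps as arrays. -/

set_option autoImplicit false

open Classical

noncomputable section

namespace Pool.Agent.P.MP_c1ff4a_lc

variable {σ Γ : Type}

/-- sweeps as an `OLCA` -/
theorem exists_olca [Finite σ] [Finite Γ] {Ψ : (ℕ → Unit) → ℕ → Γ} (hΨ : FS Ψ)
    {Φ : σ → (ℕ → Γ) → ℕ → Γ} (hΦ : ∀ a, FS (Φ a)) (acc : Set Γ) : ∃ N : OLCA σ, ∀ w t,
      N.AccAt w t ↔ w ≠ [] ∧ ∃ u, t = w.length + u ∧ run Φ (Ψ fun _ => ()) w u ∈ acc := by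
  obtain ⟨S, _, s₀, nx, out, h⟩ := FS.pi fun a => (FS.pt fun o : Option Γ => o = none).ite
    ((hΦ a).comp (hΨ.comp (FS.pt fun _ => ())))
    ((hΦ a).comp (FS.pt fun o : Option Γ => o.getD (Ψ (fun _ => ()) 0)))
  obtain ⟨pj, hp⟩ : ∃ pj : Option (σ × Option (S × Γ)) → Option (Option Γ),
    pj = fun x => x.elim (some none) fun q => q.2.map fun p => some p.2 := ⟨_, rfl⟩
  obtain ⟨δ, hδ⟩ : ∃ δ : Option (σ × Option (S × Γ)) → σ × Option (S × Γ) → σ × Option (S × Γ),
    δ = fun x q => (pj x).elim q fun g =>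
      (q.1, some (nx (q.2.elim s₀ Prod.fst) g, out (q.2.elim s₀ Prod.fst) g q.1)) := ⟨_, rfl⟩
  let N : OLCA σ := ⟨σ × Option (S × Γ), inferInstance,
    ⟨fun a => (a, none), fun _ _ e => congrArg Prod.fst e⟩, δ,
    {q | ∃ g ∈ acc, pj (some q) = some (some g)}⟩
  have key : ∀ w : List σ, (∀ t < w.length, pj (N.cfg w t).getLast? = none) ∧
      ∀ u, pj (N.cfg w (w.length + u)).getLast? =
        some (if w = [] then none else some (run Φ (Ψ fun _ => ()) w u)) := fun w => by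
    induction w using List.reverseRecOn with
    | nil =>
      refine ⟨by simp, fun u => ?_⟩
      rw [List.length_eq_zero_iff.1 (N.length_cfg [] _), hp]
      rfl
    | append_singleton w a ih =>
      obtain ⟨G, hG⟩ : ∃ G : ℕ → Option Γ,
        G = fun u => if w = [] then none else some (run Φ (Ψ fun _ => ()) w u) := ⟨_, rfl⟩
      obtain ⟨z, hz⟩ : ∃ z : ℕ → σ × Option (S × Γ),
        z = sc (a, none) (fun s x => δ x s) fun s => (N.cfg w s).getLast? := ⟨_, rfl⟩
      have e0 : ∀ t, (N.cfg (w ++ [a]) t).getLast? = some (z t) := fun t => by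
        rw [N.cfg_snoc, List.getLast?_concat, hz]
        rfl
      have e1 : ∀ t, z (t + 1) = δ (N.cfg w t).getLast? (z t) := fun t => by rw [hz]; rfl
      have e2 : ∀ t ≤ w.length, z t = (a, none) := fun t ht => by
        induction t with
        | zero => rw [hz]; rfl
        | succ t it => rw [e1, hδ]; simp only [ih.1 t ht, it (by omega), Option.elim_none]
      have e3 : ∀ u, z (w.length + u + 1) =
          (a, some (sc s₀ nx G (u + 1), out (sc s₀ nx G u) (G u) a)) := fun u => by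
        induction u with
        | zero => rw [e1, hδ, e2 _ le_rfl, hG]; beta_reduce; erw [ih.2 0]; rfl
        | succ u iu => rw [e1, hδ]; beta_reduce; rw [ih.2, ← add_assoc, iu, hG]; rfl
      simp only [e0, List.length_append, List.length_singleton]
      refine ⟨fun t ht => by rw [e2 t (by omega), hp]; rfl, fun u => ?_⟩
      rw [add_right_comm, e3, ← congrFun (h G u) a, hp, if_neg (List.concat_ne_nil a w), run_snoc, hG]
      by_cases c : w = [] <;> simp [c]
  refine ⟨N, fun w t => ⟨fun ⟨q, ⟨g, a, b⟩, c⟩ => ?_, fun ⟨a, u, b, c⟩ => ?_⟩⟩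
  · rw [← c] at b
    obtain ⟨u, rfl⟩ := Nat.exists_eq_add_of_le (m := w.length) (n := t)
      (not_lt.1 fun d => by simp [(key w).1 t d] at b)
    rw [(key w).2] at b
    by_cases d : w = []
    · simp [d] at b
    · simp only [if_neg d, Option.some.injEq] at b
      exact ⟨d, u, rfl, b ▸ a⟩
  · have := (key w).2 u
    rw [if_neg a, ← b] at this
    cases e : (N.cfg w t).getLast? with
    | none => simp [e, hp] at this
    | some q => exact ⟨q, ⟨_, c, e ▸ this⟩, e⟩

/-- sweeps as an `OLIA` -/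
theorem exists_olia [Finite Γ] (e : Option σ → Γ) {Ψ : (ℕ → Γ) → ℕ → Γ} (hΨ : FS Ψ)
    (acc : Set Γ) : ∃ M : OLIA σ, ∀ w t, M.AccAt w t ↔
      w ≠ [] ∧ ∃ u, t = w.length + u ∧ Ψ^[w.length] (fun s => e w[s]?) u ∈ acc := by
  obtain ⟨S, _, s₀, nx, out, h⟩ := hΨ
  obtain ⟨st, hs⟩ : ∃ st : Γ → Option (S × Γ) → Option (S × Γ), st = fun g q =>
    some (nx (q.elim s₀ Prod.fst) g, out (q.elim s₀ Prod.fst) g) := ⟨_, rfl⟩
  let M : OLIA σ := ⟨Option (S × Γ), inferInstance, none, fun x => st (e x),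
    fun l q => l.bind fun p => st p.2 q, rfl, {q | ∃ p, q = some p ∧ p.2 ∈ acc}⟩
  refine ⟨M, fun w t => ?_⟩
  rcases w.eq_nil_or_concat' with rfl | ⟨v, a, hw⟩
  · simpa using M.not_acc_nil t
  obtain ⟨k, hk⟩ : ∃ k, w.length = k + 1 := ⟨v.length, by simp [hw]⟩
  obtain ⟨f, hf⟩ : ∃ f : ℕ → ℕ → Option (S × Γ), f = fun t i => if t ≤ i then none else
    some (sc s₀ nx (Ψ^[i] fun s => e w[s]?) (t - i), Ψ^[i + 1] (fun s => e w[s]?) (t - (i + 1))) :=
    ⟨_, rfl⟩
  have e1 : ∀ t i, (f t i).elim s₀ Prod.fst = sc s₀ nx (Ψ^[i] fun s => e w[s]?) (t - i) :=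
    fun t i => by
      rw [hf]
      beta_reduce
      split_ifs with c
      · rw [Nat.sub_eq_zero_of_le c]; rfl
      · rfl
  have e2 : ∀ t i, i ≤ t → f (t + 1) i = st (Ψ^[i] (fun s => e w[s]?) (t - i)) (f t i) :=
    fun t i c => by
      rw [hs]
      beta_reduce
      rw [e1, ← h, hf]
      beta_reduce
      rw [if_neg (by omega), Nat.succ_sub c, Nat.succ_sub_succ, Function.iterate_succ_apply']
      rfl
  rw [M.acc_iff hk (M.cfg_eq w f (fun i => by simp [hf, M]) (fun t => e2 t 0 t.zero_le)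
    (fun t i => ?_) t)]
  · simp only [hf, M, Set.mem_ofPred_eq, hk]
    refine ⟨fun ⟨p, a, b⟩ => ⟨by simp [hw], t - (k + 1), ?_⟩, fun ⟨_, u, a, b⟩ => ?_⟩
    · split_ifs at a with c
      cases a
      exact ⟨by omega, b⟩
    · subst a
      exact ⟨_, if_neg (by omega), by rwa [Nat.add_sub_cancel_left]⟩
  · rcases le_or_gt t i with c | c
    · simp [hf, M, c]
    · rw [e2 t (i + 1) c, show f t i = some _ by rw [hf]; exact if_neg c.not_ge]
      rfl

end Pool.Agent.P.MP_c1ff4a_lc
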