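import Pool.Agent.P.MP_c1ff4a_lc.Sec
import Pool.Agent.P.MP_c1ff4a_lc.Conv
import Pool.Agent.P.MP_c1ff4a_lc.Conv2

/-! Reversing the input. -/

set_option autoImplicit false

open Classical

noncomputable section

namespace Pool.Agent.P.MP_c1ff4a_lc

variable {σ : Type} [Finite σ]

/-- an `OLIA` reverses its input -/
theorem exists_rev (N : OLCA σ) : ∃ M : OLIA σ, ∀ w t,
    M.AccAt w t ↔ ∃ u, t = 2 * w.length + u ∧ N.AccAt w.reverse u := by
  have := N.fin
  obtain ⟨Φ, hΦ, hN⟩ := N.sweep
  obtain ⟨P, hP, hspec⟩ := exists_aft hΦ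
  let Ψ : (ℕ → Prop × Option σ × Option N.Q) → ℕ → Prop × Option σ × Option N.Q :=
    fun τ u => ((τ u).1, dl none (fun s => (τ s).2.1) u, P τ u)
  have hΨ : FS Ψ :=
    (FS.pt fun x : Prop × Option σ × Option N.Q => x.1).pair
      (((FS.pt fun x : Prop × Option σ × Option N.Q => x.2.1).dl none).pair hP)
  obtain ⟨M, hM⟩ := exists_olia (σ := σ) (fun o => (o ≠ none, o, (none : Option N.Q))) hΨ
    {x | x.2.2 ∈ some '' N.F}
  refine ⟨M, fun w t => ?_⟩
  have key : ∀ k ≤ w.length,
      (∀ u, (Ψ^[k] (fun s => (w[s]? ≠ none, w[s]?, (none : Option N.Q))) u).1 ↔ u < w.length) ∧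
      (∀ u, (Ψ^[k] (fun s => (w[s]? ≠ none, w[s]?, (none : Option N.Q))) u).2.1 =
        if k ≤ u then w[u - k]? else none) ∧
      (∀ u < w.length,
        (Ψ^[k] (fun s => (w[s]? ≠ none, w[s]?, (none : Option N.Q))) u).2.2 = none) ∧
      (fun v => (Ψ^[k] (fun s => (w[s]? ≠ none, w[s]?, (none : Option N.Q)))
        (w.length + v)).2.2) = run Φ (fun _ => none) (w.reverse.take k) := by
    intro k
    induction k with
    | zero =>
      intro _
      refine ⟨fun u => by simp, fun u => by simp, fun u _ => rfl, ?_⟩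
      rfl
    | succ k ih =>
      intro hk
      obtain ⟨h1, h2, h3, h4⟩ := ih (by omega)
      rw [Function.iterate_succ_apply']
      generalize Ψ^[k] (fun s => (w[s]? ≠ none, w[s]?, (none : Option N.Q))) = τ at h1 h2 h3 h4
      obtain ⟨s1, -, s3⟩ := hspec τ w.length h1
      refine ⟨h1, fun u => ?_, fun u hu => (s1 u hu).trans (h3 u hu), funext fun v => ?_⟩
      · cases u with
        | zero => simp [Ψ, dl]
        | succ u => simp [Ψ, dl, h2]
      · have hl : k < w.reverse.length := by simpa using hk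
        have ha : (τ (w.length - 1)).2.1 = some w.reverse[k] := by
          rw [h2, if_pos (by omega), List.getElem_reverse, List.getElem?_eq_getElem]
        have := s3 (w.length - 1) (by omega) _ ha (fun u a b => by omega) v
        rw [List.take_succ_eq_append_getElem hl, run_snoc, ← h4]
        exact this
  obtain ⟨-, -, h3, h4⟩ := key w.length le_rfl
  rw [List.take_of_length_le (by simp)] at h4
  rw [hM]
  constructor
  · rintro ⟨-, u, rfl, hu⟩
    have hu' : w.length ≤ u := by
      by_contra hc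
      have := h3 u (by omega)
      simp only [Set.mem_ofPred_eq, this] at hu
      simp at hu
    obtain ⟨v, rfl⟩ := Nat.exists_eq_add_of_le hu'
    refine ⟨v, by omega, (hN _ _).2 ?_⟩
    rw [← h4]
    exact hu
  · rintro ⟨u, rfl, hu⟩
    refine ⟨fun e => ?_, w.length + u, by omega, ?_⟩
    · subst e
      exact N.not_acc_nil u hu
    · have := (hN _ _).1 hu
      rw [← h4] at this
      exact this

end Pool.Agent.P.MP_c1ff4a_lc
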