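import Pool.Agent.P.MP_c1ff4a_lc.CircA
import Pool.Agent.P.MP_c1ff4a_lc.Rev

/-! A one-way array that evaluates circuits, and the transfer of its time to circuit depth. -/

set_option autoImplicit false

open Classical

noncomputable section

namespace Pool.Agent.P.MP_c1ff4a_lc

/-- the last `m` nodes of an array as a shallow circuit -/
theorem cascade {σ : Type} (N : OLCA σ) (e : Bool → σ) : ∃ K : ℕ, ∀ (m T L : ℕ) (p : List σ),
    T + 1 ≤ 2 ^ L → ∃ C : Circuit, C.gates.length ≤ K * (m + 1) * (T + 2) * (L + 2) ∧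
      C.depth m ≤ K * (m + 1) * (L + 2) ∧ ∀ x : List Bool, x.length = m →
        (C.eval x = true ↔ ∃ t ≤ T, N.AccAt (p ++ (x.map e).reverse) t) := by
  have := N.fin
  obtain ⟨K₀, h₀⟩ := op2 Unit Unit (Option N.Q)
  obtain ⟨K₁, h₁⟩ := op2 Bool Bool N.Q
  obtain ⟨K₂, h₂⟩ := scan (fun (s : N.Q) (x : Option N.Q) => N.δ x s)
  obtain ⟨K₃, h₃⟩ := op2 Unit Unit Prop
  obtain ⟨K₄, h₄⟩ := scan (fun (s : Prop) (x : Option N.Q) => s ∨ x ∈ some '' N.F)
  obtain ⟨K₅, h₅⟩ := op2 N.Q N.Q (Option N.Q)
  obtain ⟨K, hK⟩ : ∃ K, K = K₀ + K₁ + K₂ + K₃ + K₄ + K₅ + 1 := ⟨_, rfl⟩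
  refine ⟨6 * K, fun m T L p hT => ?_⟩
  obtain ⟨D, hD⟩ : ∃ D, D = K * (L + 2) := ⟨_, rfl⟩
  obtain ⟨B, hB⟩ : ∃ B, B = D * (T + 2) := ⟨_, rfl⟩
  have d0 : K ≤ D := hD ▸ Nat.le_mul_of_pos_right _ (by omega)
  have d1 : ∀ K', K' ≤ K → K' * (L + 2) ≤ D := fun K' h => hD ▸ Nat.mul_le_mul_right _ h
  have b0 : D ≤ B := hB ▸ Nat.le_mul_of_pos_right _ (by omega)
  have b1 : ∀ K', K' ≤ K → K' * (T + 1) ≤ B := fun K' h =>
    hB ▸ Nat.mul_le_mul (h.trans d0) (by omega)
  have b2 : ∀ K', K' ≤ K → K' * (T + 1 + 1) * (L + 2) ≤ B := fun K' h => by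
    rw [hB, mul_right_comm]; exact Nat.mul_le_mul_right _ (d1 K' h)
  have unit : ∀ G, ∃ g, AvQ m (G ++ [g]) (fun _ => ()) 1 := fun G => by
    obtain ⟨g, hg⟩ := Av.top m G
    exact ⟨g, fun _ => hg.mono le_rfl fun _ _ => by simp⟩
  have key : ∀ k ≤ m, ∃ G : List (ℕ × ℕ), G.length ≤ 4 * B * k + 2 * B ∧ ∀ t ≤ T, AvQ m G
      (fun x => (N.cfg (p ++ ((x.drop (m - k)).map e).reverse) t).getLast?)
      (3 * D * k + 2 * D) := by
    intro k
    induction k with
    | zero =>
      intro _
      obtain ⟨g, hg⟩ := unit []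
      obtain ⟨H, h1, h2⟩ := batch (K := K₀) (I := fun G => AvQ m G (fun _ => ()) 1)
        (R := fun t G => AvQ m G (fun _ => (N.cfg p t).getLast?) (1 + K₀))
        (fun G H h => h.ext H) (fun _ G H h => h.ext H) (List.range (T + 1))
        (fun t _ G h => h₀ (fun _ _ => (N.cfg p t).getLast?) m 1 G _ _ h h) hg
      have := b1 K₀ (by omega)
      refine ⟨_, ?_, fun t ht => (h2 t (by simp; omega)).mono (by omega) fun x hx => ?_⟩
      · simp only [List.length_append, List.length_range, List.length_cons, List.length_nil] at *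
        omega
      · simp [← hx]
    | succ k ih =>
      intro hk
      obtain ⟨G, g1, g2⟩ := ih (by omega)
      have i0 := Av.input (i := m - (k + 1)) (m := m) (by omega) G
      obtain ⟨g, i1⟩ := i0.nand i0
      have i2 : AvQ m (G ++ [g]) (fun x => x.getD (m - (k + 1)) false) 1 := fun b => by
        cases b
        · exact i1.mono le_rfl fun _ _ => by simp
        · exact (i0.ext _).mono (by omega) fun _ _ => Iff.rfl
      obtain ⟨H₁, a1, a2⟩ := h₁ (fun b _ => N.ι (e b)) m 1 _ _ _ i2 i2
      obtain ⟨H₂, a3, a4⟩ := h₂ m (3 * D * k + 2 * D) (T + 1) L _ _ (fun x t =>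
        (N.cfg (p ++ ((x.drop (m - k)).map e).reverse) t).getLast?) hT
        (a2.mono (by omega) fun _ _ => rfl) (fun t ht => ((g2 t (by omega)).ext _).ext _)
      obtain ⟨H₃, a5, a6⟩ := batch (K := K₅) (I := fun G => ∀ t ≤ T + 1, AvQ m G (fun x =>
          sc (N.ι (e (x.getD (m - (k + 1)) false))) (fun s x => N.δ x s) (fun t =>
            (N.cfg (p ++ ((x.drop (m - k)).map e).reverse) t).getLast?) t)
          (3 * D * k + 2 * D + K₂ * (L + 2)))
        (R := fun t G => AvQ m G (fun x =>
          some (sc (N.ι (e (x.getD (m - (k + 1)) false))) (fun s x => N.δ x s) (fun t =>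
            (N.cfg (p ++ ((x.drop (m - k)).map e).reverse) t).getLast?) t))
          (3 * D * k + 2 * D + K₂ * (L + 2) + K₅))
        (fun G H h t ht => (h t ht).ext H) (fun _ G H h => h.ext H) (List.range (T + 1))
        (fun t ht G h => h₅ (fun a _ => some a) m _ G _ _ (h t (by simp at ht; omega))
          (h t (by simp at ht; omega))) a4
      have c1 := b1 K₅ (by omega)
      have c2 := b2 K₂ (by omega)
      have c3 := d1 K₂ (by omega)
      refine ⟨_, ?_, fun t ht => (a6 t (by simp; omega)).mono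
        (by rw [mul_add (3 * D)]; omega) fun x hx => ?_⟩
      · simp only [List.length_append, List.length_range, List.length_cons, List.length_nil] at *
        rw [mul_add (4 * B)]
        omega
      · have hl : m - (k + 1) < x.length := by omega
        rw [List.drop_eq_getElem_cons hl, show m - (k + 1) + 1 = m - k by omega, List.map_cons,
          List.reverse_cons, ← List.append_assoc, N.cfg_snoc, List.getLast?_concat,
          List.getD_eq_getElem _ _ hl]
  obtain ⟨G, g1, g2⟩ := key m le_rfl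
  obtain ⟨g, hg⟩ := unit G
  obtain ⟨H₁, a1, a2⟩ := h₃ (fun _ _ => False) m 1 _ _ _ hg hg
  obtain ⟨H₂, a3, a4⟩ := h₄ m (3 * D * m + 2 * D) (T + 1) L _ _ (fun x t =>
    (N.cfg (p ++ ((x.drop (m - m)).map e).reverse) t).getLast?) hT
    (a2.mono (by omega) fun _ _ => rfl) (fun t ht => ((g2 t (by omega)).ext _).ext _)
  obtain ⟨i, -, i2, i3⟩ := a4 (T + 1) le_rfl True
  have c2 := b2 K₄ (by omega)
  have c3 := d1 K₄ (by omega)
  refine ⟨⟨_, i⟩, ?_, i2.trans ?_, fun x hx => (i3 x hx).trans ?_⟩
  · rw [show 6 * K * (m + 1) * (T + 2) * (L + 2) = 6 * (B * m) + 6 * B by rw [hB, hD]; ring]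
    simp only [List.length_append, List.length_cons, List.length_nil] at *
    rw [mul_assoc] at g1
    omega
  · rw [show 6 * K * (m + 1) * (L + 2) = 6 * (D * m) + 6 * D by rw [hD]; ring, mul_assoc]
    omega
  · have : ∀ (τ : ℕ → Option N.Q) (n : ℕ),
        sc False (fun (s : Prop) (x : Option N.Q) => s ∨ x ∈ some '' N.F) τ n ↔
          ∃ t < n, τ t ∈ some '' N.F := fun τ n => by
      induction n with
      | zero => simp [sc]
      | succ n ih => rw [sc, ih, Nat.exists_lt_succ_right]
    simp only [eq_iff_iff, iff_true, this, Nat.sub_self, List.drop_zero, Nat.lt_succ_iff]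
    exact exists_congr fun t => and_congr_right fun _ =>
      exists_congr fun q => and_congr_right fun _ => eq_comm

/-- letters: an input bit, or one of the instructions reset, advance, swap, gate, answer -/
abbrev Ins := Bool ⊕ Fin 5

/-- wires, two pointers, and whether an answer was just requested -/
abbrev St := List Bool × ℕ × ℕ × Prop

/-- the effect of a letter -/
def stp (s : St) : Ins → St
  | .inl b => (s.1 ++ [b], s.2.1, s.2.2.1, False)
  | .inr 0 => (s.1, 0, s.2.2.1, False)
  | .inr 1 => (s.1, s.2.1 + 1, s.2.2.1, False)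
  | .inr 2 => (s.1, s.2.2.1, s.2.1, False)
  | .inr 3 => (s.1 ++ [!(s.1.getD s.2.1 false && s.1.getD s.2.2.1 false)], s.2.1, s.2.2.1, False)
  | .inr 4 => (s.1, s.2.1, s.2.2.1, True)

/-- the tape of a state -/
def enc (s : St) (u : ℕ) : Option Bool × Prop × Prop × Prop :=
  (s.1[u]?, u = s.2.1, u = s.2.2.1, s.2.2.2 ∧ u = s.2.1 ∧ s.1[u]? = some true)

lemma dl_zero : dl True (fun _ => False) = fun u => u = 0 := by
  funext u; cases u <;> simp [dl]

lemma dl_succ (a : ℕ) : dl False (fun u => u = a) = fun u => u = a + 1 := by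
  funext u; cases u <;> simp [dl]

theorem exists_stp (a : Ins) : ∃ Φ : (ℕ → Option Bool × Prop × Prop × Prop) → ℕ →
    Option Bool × Prop × Prop × Prop, FS Φ ∧ ∀ s, Φ (enc s) = enc (stp s a) := by
  have p1 := FS.pt fun c : Option Bool × Prop × Prop × Prop => c.1
  have p2 := FS.pt fun c : Option Bool × Prop × Prop × Prop => c.2.1
  have p3 := FS.pt fun c : Option Bool × Prop × Prop × Prop => c.2.2.1
  have p4 := FS.pt fun _ : Option Bool × Prop × Prop × Prop => False
  obtain ⟨A, hA, sA⟩ : ∃ A : Bool → (ℕ → Option Bool) → ℕ → Option Bool, (∀ b, FS (A b)) ∧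
      ∀ b (l : List Bool), A b (fun u => l[u]?) = fun u => (l ++ [b])[u]? := by
    choose A h1 h2 using fun b : Bool => exists_app b
    exact ⟨A, h1, fun b l => h2 b _ l fun _ _ => rfl⟩
  rcases a with b | a
  · refine ⟨_, ((hA b).comp p1).pair (p2.pair (p3.pair p4)), fun s => funext fun u => ?_⟩
    simp [enc, stp, sA]
  fin_cases a
  · refine ⟨_, p1.pair ((p4.dl True).pair (p3.pair p4)), fun s => funext fun u => ?_⟩
    simp [enc, stp, dl_zero]
  · refine ⟨_, p1.pair ((p2.dl False).pair (p3.pair p4)), fun s => funext fun u => ?_⟩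
    simp [enc, stp, dl_succ]
  · refine ⟨_, p1.pair (p3.pair (p2.pair p4)), fun s => funext fun u => ?_⟩
    simp [enc, stp]
  · have q2 := (FS.pt fun c : Option Bool × Prop × Prop × Prop =>
      ¬ (c.2.1 ∧ c.1 = some true)).allLt
    have q3 := (FS.pt fun c : Option Bool × Prop × Prop × Prop =>
      ¬ (c.2.2.1 ∧ c.1 = some true)).allLt
    refine ⟨_, ((q2.map₂ q3 Or).ite ((hA true).comp p1) ((hA false).comp p1)).pair
      (p2.pair (p3.pair p4)), fun s => funext fun u => ?_⟩
    obtain ⟨l, a, b, o⟩ := s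
    have k : ∀ a, (∀ s < l.length, ¬ (s = a ∧ l[s]? = some true)) ↔ l.getD a false = false := by
      intro a
      rcases lt_or_ge a l.length with h | h
      · rw [List.getD_eq_getElem _ _ h]
        refine ⟨fun k => by simpa [h] using k a h, ?_⟩
        rintro k s - ⟨rfl, e⟩
        simp [h, k] at e
      · rw [List.getD_eq_default _ _ h]
        exact iff_of_true (fun s hs e => by omega) rfl
    simp only [enc, stp, sA, false_and]
    congr 1
    rcases eq_or_ne u l.length with rfl | h
    · simp only [k]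
      cases l.getD a false <;> cases l.getD b false <;> simp
    · have : ∀ c c' : Bool, (l ++ [c])[u]? = (l ++ [c'])[u]? := fun c c' => by
        rcases lt_or_gt_of_ne h with h | h
        · simp [List.getElem?_append_left h]
        · rw [List.getElem?_eq_none (by simp; omega), List.getElem?_eq_none (by simp; omega)]
      split_ifs <;> exact this _ _
  · refine ⟨_, p1.pair (p2.pair (p3.pair (p2.map₂ p1 fun a b => a ∧ b = some true))),
      fun s => funext fun u => ?_⟩
    simp [enc, stp]

lemma stp_length (w : List Ins) : ∀ s : St, (w.foldl stp s).1.length ≤ s.1.length + w.length := by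
  induction w with
  | nil => simp
  | cons a w ih =>
    intro s
    have h : (stp s a).1.length ≤ s.1.length + 1 := by
      rcases a with b | a
      · simp [stp]
      · fin_cases a <;> simp [stp]
    have := ih (stp s a)
    simp only [List.foldl_cons, List.length_cons]
    omega

theorem exists_eval : ∃ M : OLIA Ins, (M.Time fun n => 4 * n) ∧ ∀ w : List Ins, w ≠ [] →
    (w.reverse ∈ M.lang ↔ (w.foldl stp ([], 0, 0, False)).2.2.2 ∧
      (w.foldl stp ([], 0, 0, False)).1.getD (w.foldl stp ([], 0, 0, False)).2.1 false = true) := by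
  choose Φ h1 h2 using exists_stp
  have z := (FS.pt fun _ : Unit => False).dl True
  obtain ⟨N, hN⟩ := exists_olca ((FS.pt fun _ : Unit => (none : Option Bool)).pair
    (z.pair (z.pair (FS.pt fun _ : Unit => False)))) h1 {c | c.2.2.2}
  have h3 : ∀ w : List Ins, run Φ (enc ([], 0, 0, False)) w
      = enc (w.foldl stp ([], 0, 0, False)) := fun w => by
    induction w using List.reverseRecOn with
    | nil => rfl
    | append_singleton w a ih => rw [run_snoc, ih, h2, List.foldl_append]; rfl
  have h4 : (fun t : ℕ => ((none : Option Bool), dl True (fun _ => False) t,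
      dl True (fun _ => False) t, False)) = enc ([], 0, 0, False) := by
    funext u; simp [enc, dl_zero]
  simp only [h4, h3, enc, Set.mem_ofPred_eq] at hN
  obtain ⟨M, hM⟩ := exists_rev N
  refine ⟨M, ?_, fun w hw => ⟨?_, fun h => ?_⟩⟩
  · rintro w ⟨t, ht⟩
    refine ⟨t, ?_, ht⟩
    obtain ⟨u, rfl, hu⟩ := (hM w t).1 ht
    obtain ⟨-, v, rfl, -, -, hv⟩ := (hN _ _).1 hu
    have := (List.getElem?_eq_some_iff.1 hv).1
    have := stp_length w.reverse ([], 0, 0, False)
    simp only [List.length_reverse, List.length_nil] at *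
    omega
  · rintro ⟨t, ht⟩
    obtain ⟨u, rfl, hu⟩ := (hM _ t).1 ht
    rw [List.reverse_reverse] at hu
    obtain ⟨-, v, rfl, a, rfl, hv⟩ := (hN _ _).1 hu
    exact ⟨a, by rw [List.getD_eq_getElem?_getD, hv]; rfl⟩
  · refine ⟨_, (hM _ _).2 ⟨_, rfl,
      (List.reverse_reverse w).symm ▸ (hN w _).2 ⟨hw, _, rfl, h.1, rfl, ?_⟩⟩⟩
    have := h.2
    rw [List.getD_eq_getElem?_getD] at this
    revert this
    rcases (w.foldl stp ([], 0, 0, False)).1[(w.foldl stp ([], 0, 0, False)).2.1]? with _ | b
    <;> simp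

/-- move the first pointer to position `i` -/
def mv (i : ℕ) : List Ins := .inr 0 :: List.replicate i (.inr 1)

lemma mv_spec (i : ℕ) (s : St) : (mv i).foldl stp s = (s.1, i, s.2.2.1, False) := by
  rw [mv, List.foldl_cons]
  induction i with
  | zero => rfl
  | succ i ih => rw [List.replicate_succ', List.foldl_append, ih]; rfl

lemma getD_min (l : List Bool) {r : ℕ} (h : l.length ≤ r) (i : ℕ) :
    l.getD (min i r) false = l.getD i false := by
  rcases le_total i r with k | k
  · rw [min_eq_left k]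
  · rw [min_eq_right k, List.getD_eq_default _ _ h, List.getD_eq_default _ _ (h.trans k)]

lemma exists_prog (r : ℕ) (G : List (ℕ × ℕ)) : ∃ w : List Ins, w.length ≤ G.length * (2 * r + 4) ∧
    ∀ s : St, s.1.length + G.length ≤ r → (w.foldl stp s).1 = wires G s.1 := by
  induction G using List.reverseRecOn with
  | nil => exact ⟨[], by simp, fun _ _ => rfl⟩
  | append_singleton G g ih =>
    obtain ⟨w, h1, h2⟩ := ih
    refine ⟨w ++ mv (min g.2 r) ++ [.inr 2] ++ mv (min g.1 r) ++ [.inr 3], ?_, fun s hs => ?_⟩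
    · simp only [List.length_append, mv, List.length_cons, List.length_replicate, List.length_nil,
        add_mul]
      omega
    · simp only [List.length_append, List.length_cons, List.length_nil] at hs
      have h3 : (wires G s.1).length ≤ r := by rw [wires_length]; omega
      simp only [List.foldl_append, mv_spec, List.foldl_cons, List.foldl_nil, stp, wires_snoc,
        h2 s (by omega), getD_min _ h3]

lemma bits_spec (x : List Bool) :
    ((x.map (Sum.inl : Bool → Ins)).foldl stp ([], 0, 0, False)).1 = x := by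
  induction x using List.reverseRecOn with
  | nil => rfl
  | append_singleton x b ih => rw [List.map_append, List.foldl_append]; simp [stp, ih]

lemma pad_spec (k : ℕ) (s : St) : ((List.replicate k (.inr 0 : Ins)).foldl stp s).1 = s.1 := by
  induction k with
  | zero => rfl
  | succ k ih => rw [List.replicate_succ', List.foldl_append]; simpa [stp] using ih

theorem depth_transfer : ∃ (σ : Type) (_ : Finite σ) (M : OLIA σ), (M.Time fun n => 4 * n) ∧
    ∀ (N : OLCA σ) (T : ℕ → ℕ), N.lang = M.lang → N.Time T → ∃ c : ℕ, ∀ (m : ℕ) (C : Circuit)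
      (t : ℕ), t = T (2 * (C.gates.length + m + 2) ^ 2) + 2 → ∃ C' : Circuit,
        C'.gates.length ≤ c * (m + 1) * t * Nat.log 2 t ∧
        C'.depth m ≤ c * (m + 1) * Nat.log 2 t ∧
        ∀ x : List Bool, x.length = m → C'.eval x = C.eval x := by
  obtain ⟨M, h1, h2⟩ := exists_eval
  refine ⟨Ins, inferInstance, M, h1, fun N T hN hT => ?_⟩
  obtain ⟨K, hK⟩ := cascade N Sum.inl
  refine ⟨4 * K, fun m C t ht => ?_⟩
  obtain ⟨r, hr⟩ : ∃ r, r = C.gates.length + m := ⟨_, rfl⟩
  obtain ⟨w, w1, w2⟩ := exists_prog r C.gates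
  obtain ⟨k, hk⟩ : ∃ k, m + w.length + k + (min C.out r + 2) = 2 * (r + 2) ^ 2 := by
    refine ⟨2 * (r + 2) ^ 2 - (m + w.length + (min C.out r + 2)), ?_⟩
    have : m + w.length + (min C.out r + 2) ≤ 2 * (r + 2) ^ 2 := by
      have := min_le_right C.out r
      nlinarith
    omega
  rw [← hr] at ht
  obtain ⟨T', hT'⟩ : ∃ T', T' = T (2 * (r + 2) ^ 2) := ⟨_, rfl⟩
  have l1 : 1 ≤ Nat.log 2 t := Nat.log_pos (by norm_num) (by omega)
  obtain ⟨C', c1, c2, c3⟩ := hK m T' (Nat.log 2 t + 1)
    (w ++ List.replicate k (.inr 0 : Ins) ++ mv (min C.out r) ++ [(.inr 4 : Ins)]).reverse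
    (by have := Nat.lt_pow_succ_log_self (b := 2) (by norm_num) t; omega)
  refine ⟨C', c1.trans ?_, c2.trans ?_, fun x hx => ?_⟩
  · rw [show T' + 2 = t by omega, show 4 * K * (m + 1) * t * Nat.log 2 t
      = K * (m + 1) * t * (4 * Nat.log 2 t) by ring]
    exact Nat.mul_le_mul_left _ (by omega)
  · rw [show 4 * K * (m + 1) * Nat.log 2 t = K * (m + 1) * (4 * Nat.log 2 t) by ring]
    exact Nat.mul_le_mul_left _ (by omega)
  rw [Bool.eq_iff_iff, c3 x hx, ← List.reverse_append]
  have e := h2 (x.map Sum.inl ++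
    (w ++ List.replicate k (.inr 0 : Ins) ++ mv (min C.out r) ++ [(.inr 4 : Ins)])) (by simp)
  have h3 : (wires C.gates x).length ≤ r := by rw [wires_length]; omega
  have h4 := w2 ((x.map Sum.inl).foldl stp ([], 0, 0, False)) (by rw [bits_spec]; omega)
  simp only [List.foldl_append, mv_spec, List.foldl_cons, List.foldl_nil, stp, pad_spec, true_and,
    h4, bits_spec, getD_min _ h3] at e
  rw [Circuit.eval, ← e, ← hN]
  refine ⟨fun ⟨t, _, h⟩ => ⟨t, h⟩, fun h => ?_⟩
  have := hT _ h
  simp only [List.length_reverse, List.length_append, List.length_map, List.length_replicate, mv,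
    List.length_cons, List.length_nil] at this
  rwa [show x.length + (w.length + k + (min C.out r + 1) + (0 + 1)) = 2 * (r + 2) ^ 2 by omega,
    ← hT'] at this

end Pool.Agent.P.MP_c1ff4a_lc
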