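import Mathlib

set_option autoImplicit false

namespace Pool.Agent.P.MP_c1ff4a_lc

/-- A Boolean circuit: a list of NAND gates, each naming the two wires it reads, and an output
wire. The wires are the inputs followed by the gates. -/
structure Circuit where
  gates : List (ℕ × ℕ)
  out : ℕ

/-- The values of all wires; a gate that names a wire that is not earlier reads `false`. -/
def wires (G : List (ℕ × ℕ)) (x : List Bool) : List Bool :=
  G.foldl (fun l g => l ++ [!(l.getD g.1 false && l.getD g.2 false)]) x

/-- The depths of all wires, for `m` inputs. -/
def levels (G : List (ℕ × ℕ)) (m : ℕ) : List ℕ :=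
  G.foldl (fun l g => l ++ [max (l.getD g.1 0) (l.getD g.2 0) + 1]) (List.replicate m 0)

/-- The value of the output wire. -/
def Circuit.eval (C : Circuit) (x : List Bool) : Bool := (wires C.gates x).getD C.out false

/-- The largest number of gates on a path that ends in the output wire, for `m` inputs. -/
def Circuit.depth (C : Circuit) (m : ℕ) : ℕ := (levels C.gates m).getD C.out 0

end Pool.Agent.P.MP_c1ff4a_lc
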