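import Mathlib

set_option autoImplicit false

namespace Pool.Agent.P.MP_c1ff4a_lc

/-- One-way linear cellular arrays; the left neighbour `none` is the boundary state. -/
structure OLCA (σ : Type) : Type 1 where
  Q : Type
  fin : Finite Q
  ι : σ ↪ Q
  δ : Option Q → Q → Q
  F : Set Q

/-- The configuration at time `t`. -/
def OLCA.cfg {σ : Type} (N : OLCA σ) (w : List σ) : ℕ → List N.Q
  | 0 => w.map N.ι
  | t + 1 => List.zipWith N.δ (none :: (N.cfg w t).map some) (N.cfg w t)

/-- The rightmost node is in an accepting state at time `t`. -/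
def OLCA.AccAt {σ : Type} (N : OLCA σ) (w : List σ) (t : ℕ) : Prop :=
  ∃ q ∈ N.F, (N.cfg w t).getLast? = some q

/-- The accepted language. -/
def OLCA.lang {σ : Type} (N : OLCA σ) : Set (List σ) := {w | ∃ t, N.AccAt w t}

/-- Every accepted input of length `n` is accepted within `T n` steps. -/
def OLCA.Time {σ : Type} (N : OLCA σ) (T : ℕ → ℕ) : Prop :=
  ∀ w ∈ N.lang, ∃ t ≤ T w.length, N.AccAt w t

/-- One-way linear iterative arrays; the input symbol `none` is the endmarker. -/
structure OLIA (σ : Type) : Type 1 where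
  Q : Type
  fin : Finite Q
  q₀ : Q
  δ₁ : Option σ → Q → Q
  δ : Q → Q → Q
  quiet : δ q₀ q₀ = q₀
  F : Set Q

/-- One step: the leftmost node reads `x`, every other node reads its left neighbour. -/
def OLIA.step {σ : Type} (M : OLIA σ) (x : Option σ) : List M.Q → List M.Q
  | [] => []
  | q :: l => M.δ₁ x q :: List.zipWith M.δ (q :: l) l

/-- The configuration at time `t`. -/
def OLIA.cfg {σ : Type} (M : OLIA σ) (w : List σ) : ℕ → List M.Q
  | 0 => List.replicate w.length M.q₀
  | t + 1 => M.step w[t]? (M.cfg w t)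

/-- The rightmost node is in an accepting state at time `t`. -/
def OLIA.AccAt {σ : Type} (M : OLIA σ) (w : List σ) (t : ℕ) : Prop :=
  ∃ q ∈ M.F, (M.cfg w t).getLast? = some q

/-- The accepted language. -/
def OLIA.lang {σ : Type} (M : OLIA σ) : Set (List σ) := {w | ∃ t, M.AccAt w t}

/-- Every accepted input of length `n` is accepted within `T n` steps. -/
def OLIA.Time {σ : Type} (M : OLIA σ) (T : ℕ → ℕ) : Prop :=
  ∀ w ∈ M.lang, ∃ t ≤ T w.length, M.AccAt w t

end Pool.Agent.P.MP_c1ff4a_lc
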