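import Pool.Agent.P.MP_c1ff4a_lc.Pad
import Pool.Agent.P.MP_c1ff4a_lc.Conv
import Pool.Agent.P.MP_c1ff4a_lc.Conv2

/-! Removing blocks of equal letters in front of the input. -/

set_option autoImplicit false

open Classical

noncomputable section

namespace Pool.Agent.P.MP_c1ff4a_lc

variable {A : Type} [Finite A]

theorem pad_elim (N : OLCA A) (x : A) : ∃ (N' : OLCA A) (c : ℕ),
    (∀ w ∈ N'.lang, w ≠ [] ∧ ∃ s, List.replicate s x ++ w ∈ N.lang) ∧
    ∀ w s t, w ≠ [] → s ≤ w.length → N.AccAt (List.replicate s x ++ w) t →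
      ∃ t' ≤ c * (t + w.length + 1) ^ 2, N'.AccAt w t' := by
  have := N.fin
  obtain ⟨Φ, h1, h2⟩ := N.sweep
  obtain ⟨B, hB⟩ : ∃ B, B = Nat.card N.Q ^ 8 + 9 := ⟨_, rfl⟩
  have b2 : 2 ≤ B := by omega
  choose Ψ Φ' a1 a2 a3 using fun p : Fin 4 =>
    pad_sweep h1 none (some '' N.F) x b2 (show p.1 ≤ 3 by omega)
  obtain ⟨N', h3⟩ := exists_olca (FS.pi a1)
    (fun a => FS.pi fun p => (a2 p a).comp (FS.pt fun z : Fin 4 → _ => z p)) {z | ∃ p, (z p).2.2}
  have e : ∀ (w : List A) p, (fun t => run (fun a (τ : ℕ → Fin 4 → _) t p => Φ' p a (fun t => τ t p) t)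
      (fun t p => Ψ p (fun _ => ()) t) w t p) = run (Φ' p) (Ψ p fun _ => ()) w := fun w p => by
    induction w using List.reverseRecOn with
    | nil => rfl
    | append_singleton w a ih => simp only [run_snoc, ih]
  refine ⟨N', 4 * B ^ 4 + 1, fun w ⟨t, h⟩ => ?_, fun w s t hw hs h => ?_⟩
  · obtain ⟨b, u, -, p, c⟩ := (h3 w t).1 h
    obtain ⟨s, v, d⟩ := (a3 p w).1 u (congrFun (e w p) u ▸ c)
    exact ⟨b, s, v, (h2 _ v).2 d⟩
  obtain ⟨t₀, c1, c2, c3⟩ := N.first h
  have n1 := List.length_pos_iff.2 hw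
  rw [List.length_append, List.length_replicate] at c2
  have c4 : 2 * w.length + t₀ < B ^ (w.length / 4 + 1) := by
    have d1 : 0 < Nat.card N.Q := Nat.pos_of_ne_zero fun d => by
      rw [d, zero_pow (by omega)] at c2
      omega
    have d2 := Nat.pow_le_pow_right d1 (show s + w.length ≤ 8 * (w.length / 4 + 1) by omega)
    have d3 := one_add_mul_le_pow_of_sq_nonneg (a := 8) (by omega) (by omega) (by omega)
      (w.length / 4 + 1)
    have d4 := pow_add_pow_le (Nat.zero_le (Nat.card N.Q ^ 8)) (Nat.zero_le 9)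
      (w.length / 4).succ_ne_zero
    rw [← hB, ← pow_mul, Nat.succ_eq_add_one] at d4
    norm_num at d3
    omega
  have c5 := Nat.log_lt_of_lt_pow (by omega) c4
  obtain ⟨u, c6, c7⟩ := (a3 ⟨s % 4, by omega⟩ w).2 (Nat.log B (2 * w.length + t₀) + 1) (s / 4) t₀ hw
    (by omega) (by omega) (by simp only; omega) (Nat.lt_pow_succ_log_self b2 _)
    (by simpa only [Nat.mod_add_div] using (h2 _ _).1 c3)
  refine ⟨w.length + u, ?_, (h3 w _).2 ⟨hw, u, rfl, _, congrFun (e w _) u ▸ c7⟩⟩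
  have d1 := Nat.pow_log_le_self B (x := 2 * w.length + t₀) (by omega)
  have d2 : B ^ (2 * (Nat.log B (2 * w.length + t₀) + 1) + 2) ≤
      B ^ 4 * (2 * (t + w.length + 1)) ^ 2 := by
    rw [show 2 * (Nat.log B (2 * w.length + t₀) + 1) + 2 = 4 + Nat.log B (2 * w.length + t₀) * 2 by
      ring, pow_add, pow_mul]
    gcongr
    omega
  nlinarith

/-- blocks of letters with multiplicities -/
def blocks {A : Type} (L : List (A × ℕ)) : List A := L.flatMap fun q => List.replicate q.2 q.1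

lemma Main_mono (p : Polynomial ℕ) {a b : ℕ} (h : a ≤ b) : p.eval a ≤ p.eval b := by
  rw [Polynomial.eval_eq_sum_range, Polynomial.eval_eq_sum_range]
  gcongr

lemma Main_len {α : Type} {n : ℕ} (L : List (α × ℕ)) (h : ∀ q ∈ L, q.2 ≤ n) :
    (blocks L).length ≤ L.length * n := by
  induction L with
  | nil => simp [blocks]
  | cons q L ih =>
    have := ih fun q hq => h q (List.mem_cons_of_mem _ hq)
    have := h q List.mem_cons_self
    simp only [blocks, List.flatMap_cons, List.length_append, List.length_replicate,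
      List.length_cons] at *
    rw [Nat.succ_mul]
    omega

theorem pad_elim_list (xs : List A) (N : OLCA A) : ∃ (N' : OLCA A) (p : Polynomial ℕ),
    (∀ w ∈ N'.lang, ∃ L : List (A × ℕ), L.map Prod.fst = xs ∧ blocks L ++ w ∈ N.lang) ∧
    ∀ (w : List A) (L : List (A × ℕ)) (t : ℕ), w ≠ [] → L.map Prod.fst = xs →
      (∀ q ∈ L, q.2 ≤ w.length) → N.AccAt (blocks L ++ w) t →
      ∃ t' ≤ p.eval (t + w.length), N'.AccAt w t' := by
  induction xs generalizing N with
  | nil =>
    refine ⟨N, Polynomial.X, fun w h => ⟨[], rfl, h⟩, fun w L t _ h _ a => ⟨t, by simp, ?_⟩⟩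
    rwa [List.map_eq_nil_iff.1 h] at a
  | cons x xs ih =>
    obtain ⟨N₁, c, a1, a2⟩ := pad_elim N x
    obtain ⟨N', p, b1, b2⟩ := ih N₁
    refine ⟨N', p.comp (Polynomial.C c * (Polynomial.C (xs.length + 1) * Polynomial.X + 1) ^ 2 +
      Polynomial.X), fun w h => ?_, ?_⟩
    · obtain ⟨L, c1, c2⟩ := b1 w h
      obtain ⟨-, s, c3⟩ := a1 _ c2
      exact ⟨(x, s) :: L, by simp [c1], by simpa [blocks] using c3⟩
    rintro w (_ | ⟨⟨y, s⟩, L⟩) t hw h1 h2 h3
    · simp at h1
    obtain ⟨rfl, h0⟩ : y = x ∧ L.map Prod.fst = xs := List.cons.inj h1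
    have h4 := fun q hq => h2 q (List.mem_cons_of_mem _ hq)
    have h5 : s ≤ w.length := h2 _ List.mem_cons_self
    obtain ⟨t₁, c1, c2⟩ := a2 (blocks L ++ w) s t (by simp [hw]) (by simp; omega)
      (by simpa [blocks] using h3)
    obtain ⟨t₂, c3, c4⟩ := b2 w L t₁ hw h0 h4 c2
    refine ⟨t₂, c3.trans ?_, c4⟩
    have := Main_len L h4
    rw [← List.length_map Prod.fst, h0] at this
    simp only [Polynomial.eval_comp, Polynomial.eval_mul, Polynomial.eval_C, Polynomial.eval_X,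
      Polynomial.eval_add, Polynomial.eval_pow, Polynomial.eval_one]
    refine Main_mono p (add_le_add (c1.trans ?_) (by omega))
    rw [List.length_append]
    gcongr
    nlinarith

end Pool.Agent.P.MP_c1ff4a_lc
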