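import Pool.Agent.P.MP_c1ff4a_lc.Defs

/-! Finite-state stream functions. -/

set_option autoImplicit false

open Classical

noncomputable section

namespace Pool.Agent.P.MP_c1ff4a_lc

variable {α β γ : Type}

/-- the state after reading `t` symbols -/
def sc {S : Type} (s₀ : S) (nx : S → α → S) (τ : ℕ → α) : ℕ → S
  | 0 => s₀
  | t + 1 => nx (sc s₀ nx τ t) (τ t)

/-- functions computed by a Mealy machine -/
def FS (Φ : (ℕ → α) → ℕ → β) : Prop :=
  ∃ (S : Type) (_ : Finite S) (s₀ : S) (nx : S → α → S) (out : S → α → β),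
    ∀ τ t, Φ τ t = out (sc s₀ nx τ t) (τ t)

/-- one sweep for each letter -/
def run {A : Type} (Φ : A → (ℕ → α) → ℕ → α) (τ : ℕ → α) (w : List A) : ℕ → α :=
  w.foldl (fun ρ a => Φ a ρ) τ

@[simp] lemma run_nil {A : Type} (Φ : A → (ℕ → α) → ℕ → α) (τ : ℕ → α) : run Φ τ [] = τ := rfl

@[simp] lemma run_snoc {A : Type} (Φ : A → (ℕ → α) → ℕ → α) (τ : ℕ → α) (w : List A) (a : A) :
    run Φ τ (w ++ [a]) = Φ a (run Φ τ w) := by simp [run]

/-- delay by one step -/
def dl (b : α) (τ : ℕ → α) : ℕ → α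
  | 0 => b
  | t + 1 => τ t

/-- restart at every marked position -/
def rst (Φ : (ℕ → α) → ℕ → β) (D : ℕ → Prop) (τ : ℕ → α) (t : ℕ) : β :=
  Φ (fun s => τ (Nat.findGreatest D t + s)) (t - Nat.findGreatest D t)

/-- keep every `B`-th mark -/
def thin (B : ℕ) (D : ℕ → Prop) (t : ℕ) : Prop :=
  D t ∧ B ∣ ((Finset.range t).filter D).card

variable {Φ : (ℕ → α) → ℕ → β}

lemma sc_congr {S : Type} (s₀ : S) (nx : S → α → S) {τ τ' : ℕ → α} (t : ℕ)
    (h : ∀ s < t, τ s = τ' s) : sc s₀ nx τ t = sc s₀ nx τ' t := by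
  induction t with
  | zero => rfl
  | succ t ih => rw [sc, sc, ih fun s hs => h s (by omega), h t (by omega)]

theorem FS.causal (h : FS Φ) {τ τ' : ℕ → α} {t : ℕ} (e : ∀ s ≤ t, τ s = τ' s) :
    Φ τ t = Φ τ' t := by
  obtain ⟨S, _, s₀, nx, out, h⟩ := h
  rw [h, h, sc_congr s₀ nx t fun s hs => e s hs.le, e t le_rfl]

theorem FS.of_eq (h : FS Φ) {Ψ : (ℕ → α) → ℕ → β} (e : ∀ τ t, Ψ τ t = Φ τ t) : FS Ψ := by
  obtain ⟨S, i, s₀, nx, out, h⟩ := h
  exact ⟨S, i, s₀, nx, out, fun τ t => (e τ t).trans (h τ t)⟩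

theorem FS.pt (f : α → β) : FS fun τ t => f (τ t) :=
  ⟨Unit, inferInstance, (), fun _ _ => (), fun _ a => f a, fun _ _ => rfl⟩

theorem FS.comp {Ψ : (ℕ → β) → ℕ → γ} (g : FS Ψ) (h : FS Φ) : FS fun τ => Ψ (Φ τ) := by
  obtain ⟨S, _, s₀, nx, out, h⟩ := h
  obtain ⟨S', _, s₀', nx', out', g⟩ := g
  refine ⟨S × S', inferInstance, (s₀, s₀'), fun s a => (nx s.1 a, nx' s.2 (out s.1 a)),
    fun s a => out' s.2 (out s.1 a), fun τ t => ?_⟩
  have : ∀ t, sc (s₀, s₀') (fun s a => (nx s.1 a, nx' s.2 (out s.1 a))) τ t =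
      (sc s₀ nx τ t, sc s₀' nx' (Φ τ) t) := fun t => by
    induction t with
    | zero => rfl
    | succ t ih => simp only [sc, ih, h]
  beta_reduce
  rw [this, g, h]

theorem FS.map (h : FS Φ) (f : β → γ) : FS fun τ t => f (Φ τ t) := (FS.pt f).comp h

theorem FS.pi {ι : Type} [Finite ι] {β : ι → Type} {Φ : ∀ i, (ℕ → α) → ℕ → β i}
    (h : ∀ i, FS (Φ i)) : FS fun τ t i => Φ i τ t := by
  choose S hS s₀ nx out h using h
  refine ⟨∀ i, S i, inferInstance, s₀, fun s a i => nx i (s i) a, fun s a i => out i (s i) a,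
    fun τ t => funext fun i => ?_⟩
  have : ∀ t, sc s₀ (fun s a i => nx i (s i) a) τ t i = sc (s₀ i) (nx i) τ t := fun t => by
    induction t with
    | zero => rfl
    | succ t ih => simp only [sc, ih]
  beta_reduce
  rw [h, this]

theorem FS.pair {Ψ : (ℕ → α) → ℕ → γ} (h : FS Φ) (g : FS Ψ) : FS fun τ t => (Φ τ t, Ψ τ t) := by
  obtain ⟨S, _, s₀, nx, out, h⟩ := h
  obtain ⟨S', _, s₀', nx', out', g⟩ := g
  refine ⟨S × S', inferInstance, (s₀, s₀'), fun s a => (nx s.1 a, nx' s.2 a),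
    fun s a => (out s.1 a, out' s.2 a), fun τ t => ?_⟩
  have : ∀ t, sc (s₀, s₀') (fun s a => (nx s.1 a, nx' s.2 a)) τ t =
      (sc s₀ nx τ t, sc s₀' nx' τ t) := fun t => by
    induction t with
    | zero => rfl
    | succ t ih => simp only [sc, ih]
  beta_reduce
  rw [this, g, h]

theorem FS.map₂ {δ : Type} {Ψ : (ℕ → α) → ℕ → γ} (h : FS Φ) (g : FS Ψ) (f : β → γ → δ) :
    FS fun τ t => f (Φ τ t) (Ψ τ t) := (h.pair g).map fun p => f p.1 p.2

theorem FS.ite {P : (ℕ → α) → ℕ → Prop} {Ψ : (ℕ → α) → ℕ → β} (p : FS P) (h : FS Φ) (g : FS Ψ) :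
    FS fun τ t => if P τ t then Φ τ t else Ψ τ t :=
  p.map₂ (h.pair g) fun a b => if a then b.1 else b.2

theorem FS.sc {S : Type} [Finite S] (h : FS Φ) (s₀ : S) (nx : S → β → S) :
    FS fun τ => sc s₀ nx (Φ τ) :=
  FS.comp ⟨S, ‹_›, s₀, nx, fun s _ => s, fun _ _ => rfl⟩ h

theorem FS.dl [Finite β] (h : FS Φ) (b : β) : FS fun τ => dl b (Φ τ) :=
  (h.sc b fun _ a => a).of_eq fun _ t => by cases t <;> rfl

/-- all earlier positions -/
theorem FS.allLt {P : (ℕ → α) → ℕ → Prop} (h : FS P) : FS fun τ t => ∀ s < t, P τ s :=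
  (h.sc True fun a b => a ∧ b).of_eq fun τ t => by
    induction t with
    | zero => simp [MP_c1ff4a_lc.sc]
    | succ t ih => rw [MP_c1ff4a_lc.sc, ← ih, Nat.forall_lt_succ_right]

theorem FS.allLe {P : (ℕ → α) → ℕ → Prop} (h : FS P) : FS fun τ t => ∀ s ≤ t, P τ s :=
  (h.allLt.map₂ h And).of_eq fun τ t => by
    rw [← Nat.forall_lt_succ_right]
    simp only [Nat.lt_succ_iff]

theorem FS.rst {D : (ℕ → γ) → ℕ → Prop} {Ψ : (ℕ → γ) → ℕ → α} (h : FS Φ) (d : FS D) (g : FS Ψ) :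
    FS fun τ => rst Φ (D τ) (Ψ τ) := by
  obtain ⟨S, _, s₀, nx, out, h⟩ := h
  have : FS fun τ : ℕ → Prop × α => MP_c1ff4a_lc.rst Φ (fun t => (τ t).1) fun t => (τ t).2 := by
    refine ⟨S, ‹_›, s₀, fun s a => nx (if a.1 then s₀ else s) a.2,
      fun s a => out (if a.1 then s₀ else s) a.2, fun τ t => ?_⟩
    have key : ∀ t, (if (τ t).1 then s₀ else
        MP_c1ff4a_lc.sc s₀ (fun s a => nx (if a.1 then s₀ else s) a.2) τ t) =
        MP_c1ff4a_lc.sc s₀ nx (fun s => (τ (Nat.findGreatest (fun t => (τ t).1) t + s)).2)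
          (t - Nat.findGreatest (fun t => (τ t).1) t) := fun t => by
      induction t with
      | zero => simp [MP_c1ff4a_lc.sc]
      | succ t ih =>
        have := Nat.findGreatest_le (P := fun t => (τ t).1) t
        rw [Nat.findGreatest_succ]
        split_ifs with a
        · simp [MP_c1ff4a_lc.sc]
        · rw [MP_c1ff4a_lc.sc, ih, Nat.succ_sub this, MP_c1ff4a_lc.sc, Nat.add_sub_cancel' this]
    beta_reduce
    rw [MP_c1ff4a_lc.rst, h, key, Nat.add_sub_cancel' (Nat.findGreatest_le t)]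
  exact this.comp (d.pair g)

theorem rst_eq {D : ℕ → Prop} {τ : ℕ → α} {b t : ℕ} (hb : b ≤ t) (h0 : b = 0 ∨ D b)
    (h1 : ∀ s, b < s → s ≤ t → ¬ D s) : rst Φ D τ t = Φ (fun s => τ (b + s)) (t - b) := by
  have : Nat.findGreatest D t = b :=
    Nat.findGreatest_eq_iff.2 ⟨hb, fun h => h0.resolve_left h, fun s => h1 s⟩
  rw [rst, this]

theorem FS.thin {D : (ℕ → α) → ℕ → Prop} (d : FS D) {B : ℕ} (hB : 0 < B) :
    FS fun τ => thin B (D τ) := by
  have : NeZero B := ⟨hB.ne'⟩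
  refine (d.map₂ (d.sc (0 : ZMod B) fun s a => if a then s + 1 else s)
    fun a s => a ∧ s = 0).of_eq fun τ t => ?_
  have : ∀ t, MP_c1ff4a_lc.sc (0 : ZMod B) (fun s a => if a then s + 1 else s) (D τ) t =
      ((Finset.range t).filter (D τ)).card := fun t => by
    induction t with
    | zero => simp [MP_c1ff4a_lc.sc]
    | succ t ih =>
      rw [MP_c1ff4a_lc.sc, ih, Finset.range_add_one, Finset.filter_insert]
      split_ifs
      · rw [Finset.card_insert_of_notMem (by simp), Nat.cast_succ]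
      · rfl
  rw [this, ZMod.natCast_eq_zero_iff, MP_c1ff4a_lc.thin]

theorem thin_dvd {B m : ℕ} (hm : 0 < m) : thin B (fun t => m ∣ t) = fun t => m * B ∣ t := by
  have key : ∀ k (i : DecidablePred fun t => m ∣ t),
      (@Finset.filter _ (fun t => m ∣ t) i (Finset.range (m * k))).card = k := fun k i => by
    rw [show (Finset.range (m * k)).filter (fun t => m ∣ t) = (Finset.range k).image (m * ·) by
      ext s
      simp only [Finset.mem_filter, Finset.mem_range, Finset.mem_image]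
      exact ⟨fun ⟨a, j, e⟩ => ⟨j, lt_of_mul_lt_mul_left (e ▸ a) m.zero_le, e.symm⟩,
        fun ⟨j, a, e⟩ => e ▸ ⟨Nat.mul_lt_mul_of_pos_left a hm, j, rfl⟩⟩,
      Finset.card_image_of_injective _ (mul_right_injective₀ hm.ne'), Finset.card_range]
  funext t
  refine propext ⟨fun ⟨⟨k, e⟩, h⟩ => ?_, fun ⟨k, e⟩ => ⟨⟨B * k, by rw [e, mul_assoc]⟩, ?_⟩⟩
  · subst e
    rw [key] at h
    exact Nat.mul_dvd_mul_left m h
  · rw [e, mul_assoc, key]
    exact dvd_mul_right _ _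

theorem FS.iter {Φ : (ℕ → α) → ℕ → α} (h : FS Φ) (k : ℕ) : FS Φ^[k] := by
  induction k with
  | zero => exact FS.pt id
  | succ k ih => exact ih.comp h

theorem FS.run {A : Type} {Φ : A → (ℕ → α) → ℕ → α} (h : ∀ a, FS (Φ a)) (w : List A) :
    FS fun τ => run Φ τ w := by
  induction w using List.reverseRecOn with
  | nil => exact FS.pt id
  | append_singleton w a ih => simpa only [run_snoc] using (h a).comp ih

theorem FS.list [Finite β] (l : List β) : FS fun (_ : ℕ → α) t => l[t]? := by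
  induction l with
  | nil => exact FS.pt fun _ => none
  | cons b l ih => exact (ih.dl (some b)).of_eq fun _ t => by cases t <;> rfl

end Pool.Agent.P.MP_c1ff4a_lc
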