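import Pool.Agent.P.MP_c1ff4a_lc.FS

/-! The layout of the tape: block `j` is `[B^(2j), B^(2j+2))`, cut into sections of length
`B^(j+1)`; at level `e` the blocks `j ≤ e` are finished. -/

set_option autoImplicit false

open Classical

noncomputable section

namespace Pool.Agent.P.MP_c1ff4a_lc

/-- the block of a position -/
def bJ (B t : ℕ) : ℕ := Nat.log (B ^ 2) t

/-- the level at which the section of a position is activated -/
def bK (B t : ℕ) : ℕ := bJ B t + t / B ^ (bJ B t + 1) - B ^ (bJ B t - 1)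

/-- the current length of the section of a position -/
def sl (B e t : ℕ) : ℕ := B ^ (min e (bJ B t) + 1)

/-- the start of the section of a position -/
def bd (B e t : ℕ) : ℕ := t - t % sl B e t

/-- layout symbols -/
@[ext] structure Ly where
  H : Prop
  G : Prop
  D : Prop
  In : Prop
  Fz : Prop
  Act : Prop

instance : Finite Ly :=
  Finite.of_injective (fun l : Ly => (l.H, l.G, l.D, l.In, l.Fz, l.Act)) fun a b h => by
    simp only [Prod.mk.injEq] at h
    exact Ly.ext h.1 h.2.1 h.2.2.1 h.2.2.2.1 h.2.2.2.2.1 h.2.2.2.2.2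

/-- the layout at level `e` -/
def lay (B e t : ℕ) : Ly where
  H := B ^ (e + 1) ∣ t
  G := B ^ (2 * e + 2) ∣ t
  D := sl B e t ∣ t
  In := t % sl B e t < B ^ min e (bJ B t)
  Fz := bJ B t ≤ e
  Act := 1 ≤ bJ B t ∧ bK B t ≤ e

variable {B e t s : ℕ}

theorem bd_le (B e t : ℕ) : bd B e t ≤ t := Nat.sub_le _ _

theorem sub_bd (B e t : ℕ) : t - bd B e t = t % sl B e t :=
  Nat.sub_sub_self (Nat.mod_le _ _)

lemma sl_pos (hB : 2 ≤ B) (e t : ℕ) : 0 < sl B e t := by unfold sl; positivity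

lemma bd_eq (B e t : ℕ) : bd B e t = sl B e t * (t / sl B e t) := by
  have := Nat.div_add_mod t (sl B e t)
  unfold bd
  omega

lemma bJ_lt (hB : 2 ≤ B) (t : ℕ) : t < B ^ (2 * bJ B t + 2) := by
  have := Nat.lt_pow_succ_log_self (b := B ^ 2) (by nlinarith) t
  rwa [← pow_mul] at this

lemma bJ_le (h : 1 ≤ bJ B t) : B ^ (2 * bJ B t) ≤ t := by
  have := Nat.pow_log_le_self (B ^ 2) (x := t) (by rintro rfl; simp [bJ] at h)
  rwa [← pow_mul] at this

lemma bJ_eq {j : ℕ} (h1 : j = 0 ∨ B ^ (2 * j) ≤ s) (h2 : s < B ^ (2 * j + 2)) :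
    bJ B s = j := by
  rcases h1 with rfl | h1
  · exact Nat.log_of_lt h2
  · exact Nat.log_eq_of_pow_le_of_lt_pow (by rwa [← pow_mul]) (by rwa [← pow_mul])

theorem bJ_sec (hB : 2 ≤ B) (h1 : bd B e t ≤ s) (h2 : s < bd B e t + sl B e t) :
    bJ B s = bJ B t := by
  have p := sl_pos hB e t
  rw [bd_eq] at h1 h2
  refine bJ_eq ?_ (h2.trans_le ?_)
  · rcases Nat.eq_zero_or_pos (bJ B t) with h | h
    · exact Or.inl h
    · obtain ⟨c, hc⟩ : sl B e t ∣ B ^ (2 * bJ B t) := pow_dvd_pow _ (by omega)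
      have := bJ_le h
      rw [hc] at this ⊢
      exact Or.inr ((Nat.mul_le_mul_left _
        ((Nat.le_div_iff_mul_le p).2 (by rwa [mul_comm]))).trans h1)
  · obtain ⟨c, hc⟩ : sl B e t ∣ B ^ (2 * bJ B t + 2) := pow_dvd_pow _ (by omega)
    have := bJ_lt hB t
    rw [hc] at this ⊢
    exact Nat.mul_le_mul_left _ (Nat.div_lt_of_lt_mul this)

lemma sl_sec (hB : 2 ≤ B) (h1 : bd B e t ≤ s) (h2 : s < bd B e t + sl B e t) :
    sl B e s = sl B e t := by rw [sl, bJ_sec hB h1 h2, sl]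

lemma div_sec (h1 : bd B e t ≤ s) (h2 : s < bd B e t + sl B e t) :
    s / sl B e t = t / sl B e t := by
  rw [bd_eq] at h1 h2
  exact Nat.div_eq_of_lt_le (by rwa [mul_comm]) (by rwa [Nat.succ_mul, mul_comm])

theorem bd_sec (hB : 2 ≤ B) (h1 : bd B e t ≤ s) (h2 : s < bd B e t + sl B e t) :
    bd B e s = bd B e t := by
  rw [bd_eq B e s, sl_sec hB h1 h2, div_sec h1 h2, ← bd_eq]

theorem bK_sec (hB : 2 ≤ B) (h0 : bJ B t ≤ e) (h1 : bd B e t ≤ s) (h2 : s < bd B e t + sl B e t) :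
    bK B s = bK B t := by
  have := div_sec h1 h2
  rw [sl, min_eq_right h0] at this
  rw [bK, bJ_sec hB h1 h2, this, bK]

theorem lt_bd_add (hB : 2 ≤ B) (e t : ℕ) : t < bd B e t + sl B e t := by
  have := Nat.mod_lt t (sl_pos hB e t)
  unfold bd
  omega

lemma bK_le (hB : 2 ≤ B) (h : 1 ≤ bJ B t) : B ^ (bJ B t - 1) ≤ t / B ^ (bJ B t + 1) := by
  refine (Nat.le_div_iff_mul_le (by positivity)).2 ?_
  rw [← pow_add, show bJ B t - 1 + (bJ B t + 1) = 2 * bJ B t by omega]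
  exact bJ_le h

theorem bJ_le_bK (hB : 2 ≤ B) (h : 1 ≤ bJ B t) : bJ B t ≤ bK B t := by
  have := bK_le hB h
  unfold bK
  omega

theorem sl_succ (h : bJ B t ≤ e) : sl B (e + 1) t = sl B e t := by
  rw [sl, sl, min_eq_right h, min_eq_right (by omega)]

theorem bd_succ (h : bJ B t ≤ e) : bd B (e + 1) t = bd B e t := by
  rw [bd, sl_succ h, bd]

/-- the first part of a new section is an old section -/
theorem bd_coarse (hB : 2 ≤ B) (h : e < bJ B t) {u : ℕ} (hu : u < B ^ (e + 1)) :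
    bJ B (bd B (e + 1) t + u) = bJ B t ∧ bd B e (bd B (e + 1) t + u) = bd B (e + 1) t := by
  have a : sl B (e + 1) t = B ^ (e + 1) * B := by rw [sl, min_eq_left h, pow_succ]
  have b : bJ B (bd B (e + 1) t + u) = bJ B t :=
    bJ_sec hB (Nat.le_add_right _ u) (by rw [a]; nlinarith)
  refine ⟨b, ?_⟩
  rw [bd, sl, b, min_eq_left h.le, bd_eq, a, mul_assoc, Nat.mul_add_mod, Nat.mod_eq_of_lt hu,
    Nat.add_sub_cancel]

theorem rst_lay {α β : Type} (hB : 2 ≤ B) (Φ : (ℕ → α) → ℕ → β) (τ : ℕ → α) (e t : ℕ) :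
    rst Φ (fun s => (lay B e s).D) τ t = Φ (fun s => τ (bd B e t + s)) (t - bd B e t) := by
  have a := lt_bd_add hB e t
  refine rst_eq (bd_le B e t) (Or.inr ?_) fun s h1 h2 h3 => ?_
  · show sl _ _ _ ∣ _
    rw [sl_sec hB le_rfl (by have := bd_le B e t; omega), bd_eq]
    exact dvd_mul_right _ _
  · have b : bd B e s = s := by rw [bd, Nat.mod_eq_zero_of_dvd h3]; rfl
    have := bd_sec hB h1.le (h2.trans_lt a)
    omega

/-- the position with offset `u` in section `k` of block `j` -/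
theorem exists_pos (hB : 2 ≤ B) {j k u : ℕ} (hj : 1 ≤ j) (hk : k < B ^ j) (hu : u < B ^ (j + 1)) :
    ∃ t < B ^ (2 * j + 2), bJ B t = j ∧ bK B t = j + k ∧ ∀ e, j ≤ e → t - bd B e t = u := by
  obtain ⟨i, rfl⟩ := Nat.exists_eq_add_of_le' hj
  have p : 0 < B ^ (i + 1 + 1) := by positivity
  have a : B ^ (i + 1 + 1) * (B ^ i + k) + u < B ^ (2 * (i + 1) + 2) := by
    have : B ^ i + k + 1 ≤ B ^ (i + 1 + 1) := by
      have : 0 < B ^ i := by positivity
      rw [pow_succ] at hk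
      rw [pow_succ, pow_succ]
      nlinarith
    rw [show 2 * (i + 1) + 2 = i + 1 + 1 + (i + 1 + 1) by ring, pow_add B (i + 1 + 1)]
    nlinarith
  have b : bJ B (B ^ (i + 1 + 1) * (B ^ i + k) + u) = i + 1 := bJ_eq (Or.inr (by
    rw [show 2 * (i + 1) = i + 1 + 1 + i by ring, pow_add B (i + 1 + 1), mul_add]; omega)) a
  refine ⟨_, a, b, ?_, fun e he => ?_⟩
  · rw [bK, b, Nat.mul_add_div p, Nat.div_eq_of_lt hu, Nat.add_sub_cancel]
    omega
  · rw [sub_bd, sl, b, min_eq_right he, Nat.mul_add_mod, Nat.mod_eq_of_lt hu]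

end Pool.Agent.P.MP_c1ff4a_lc
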