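import Pool.Agent.P.MP_c1ff4a_lc.Lay

/-! The layout is computed by sweeps. -/

set_option autoImplicit false

open Classical

noncomputable section

namespace Pool.Agent.P.MP_c1ff4a_lc

variable {B : ℕ}

theorem lay2_zero {α : Type} : FS fun (_ : ℕ → α) t => t = 0 :=
  ((FS.pt fun _ : α => False).dl True).of_eq fun _ t => by cases t <;> simp [dl]

/-- no mark at the positions `1, ..., t` -/
theorem lay2_none {α : Type} {P : (ℕ → α) → ℕ → Prop} (h : FS P) :
    FS fun τ t => ∀ s ≤ t, s = 0 ∨ ¬ P τ s :=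
  (lay2_zero.map₂ h fun a b => a ∨ ¬ b).allLe

/-- the value at position `0` -/
theorem lay2_head : FS fun (τ : ℕ → Prop) (_ : ℕ) => τ 0 :=
  ((lay2_zero.map₂ (FS.pt fun a : Prop => a) fun a b => a → b).allLe).of_eq fun τ t =>
    propext ⟨fun h s _ e => e ▸ h, fun h => h 0 (Nat.zero_le _) rfl⟩

theorem lay2_dvd {α : Type} {m : ℕ} (hm : 0 < m) : FS fun (_ : ℕ → α) t => m ∣ t := by
  have h1 : FS fun (_ : ℕ → α) (t : ℕ) => 1 ∣ t :=
    (FS.pt fun _ : α => True).of_eq fun _ t => by simp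
  refine (h1.thin hm).of_eq fun _ t => ?_
  rw [thin_dvd Nat.one_pos, Nat.one_mul]

theorem lay2_lt {m b : ℕ} (hm : 0 < m) (hb : m ∣ b) (t : ℕ) :
    (∀ s ≤ t, s = 0 ∨ ¬ m ∣ b + s) ↔ t < m := by
  constructor
  · intro h
    by_contra h1
    rcases h m (by omega) with h2 | h2
    · omega
    · exact h2 (Nat.dvd_add hb dvd_rfl)
  · intro h s hs
    by_cases h0 : s = 0
    · exact Or.inl h0
    · exact Or.inr fun h1 => absurd (Nat.le_of_dvd (by omega) ((Nat.dvd_add_right hb).1 h1))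
        (by omega)

theorem lay2_J (hB : 2 ≤ B) (e t : ℕ) : bJ B t ≤ e ↔ t < B ^ (2 * e + 2) := by
  have h1 : 1 < B ^ 2 := Nat.one_lt_pow (by norm_num) hB
  have h2 : B ^ (2 * e + 2) = (B ^ 2) ^ (e + 1) := by rw [← pow_mul]; rfl
  rw [h2, bJ]
  rcases Nat.eq_zero_or_pos t with rfl | ht
  · simp only [Nat.log_zero_right, Nat.zero_le, true_iff]
    positivity
  · rw [← Nat.lt_succ_iff, Nat.log_lt_iff_lt_pow h1 ht.ne']

theorem lay2_fz (hB : 2 ≤ B) (e t : ℕ) :
    (∀ s ≤ t, s = 0 ∨ ¬ B ^ (2 * e + 2) ∣ s) ↔ bJ B t ≤ e := by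
  rw [lay2_J hB, ← lay2_lt (b := 0) (by positivity) (dvd_zero _)]
  simp only [Nat.zero_add]

theorem lay2_pow (hB : 2 ≤ B) (j : ℕ) :
    bJ B (B ^ (2 * j + 2)) = j + 1 ∧ bK B (B ^ (2 * j + 2)) = j + 1 := by
  have h1 : bJ B (B ^ (2 * j + 2)) = j + 1 := by
    have h2 := (lay2_J hB (j + 1) (B ^ (2 * j + 2))).2 (Nat.pow_lt_pow_right hB (by omega))
    have h3 := (lay2_J hB j (B ^ (2 * j + 2))).not.2 (lt_irrefl _)
    omega
  refine ⟨h1, ?_⟩
  rw [bK, h1, Nat.pow_div (by omega) (by omega), show 2 * j + 2 - (j + 1 + 1) = j by omega]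
  simp

theorem lay2_act (hB : 2 ≤ B) (e t : ℕ) :
    ((lay B e (bd B (e + 1) t)).Act ∨ dl False (fun s => (lay B e s).Act) (bd B (e + 1) t) ∨
      (¬ (lay B e (bd B (e + 1) t)).Fz ∧ dl False (fun s => (lay B e s).Fz) (bd B (e + 1) t))) ↔
      (lay B (e + 1) t).Act := by
  have hsl : 0 < sl B (e + 1) t := by unfold sl; positivity
  have hJ : bJ B (bd B (e + 1) t) = bJ B t := bJ_sec hB le_rfl (by omega)
  have hK : bJ B t ≤ e + 1 → bK B (bd B (e + 1) t) = bK B t := fun h =>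
    bK_sec hB h le_rfl (by omega)
  have hd : sl B (e + 1) t ∣ bd B (e + 1) t := Nat.dvd_sub_mod _
  have key : ∀ b, bJ B b = bJ B t → (bJ B t ≤ e + 1 → bK B b = bK B t) → sl B (e + 1) t ∣ b →
      (((1 ≤ bJ B b ∧ bK B b ≤ e) ∨ dl False (fun s => 1 ≤ bJ B s ∧ bK B s ≤ e) b ∨
        (¬ bJ B b ≤ e ∧ dl False (fun s => bJ B s ≤ e) b)) ↔ 1 ≤ bJ B t ∧ bK B t ≤ e + 1) := by
    intro b hJ hK hd
    rcases b with _ | c
    · have h0 : bJ B 0 = 0 := by simp [bJ]
      simp only [dl, h0]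
      constructor
      · rintro (h | h | h)
        · omega
        · exact h.elim
        · exact h.2.elim
      · intro h; omega
    simp only [dl]
    have hnew : ∀ j, bJ B c ≤ j → ¬ bJ B (c + 1) ≤ j →
        bJ B (c + 1) = j + 1 ∧ bK B (c + 1) = j + 1 := by
      intro j h1 h2
      rw [lay2_J hB] at h1 h2
      rw [show c + 1 = B ^ (2 * j + 2) by omega]
      exact lay2_pow hB j
    have hmono : bJ B c ≤ bJ B (c + 1) := Nat.log_mono_right (Nat.le_succ c)
    constructor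
    · rintro (⟨h1, h2⟩ | ⟨h1, h2⟩ | ⟨h1, h2⟩)
      · have := bJ_le_bK hB h1
        have := hK (by omega)
        omega
      · have h3 := bJ_le_bK hB h1
        by_cases h4 : bJ B (c + 1) ≤ bJ B c
        · have h5 : bJ B (c + 1) = bJ B c := le_antisymm h4 hmono
          have h6 := hK (by omega)
          have h7 : bK B (c + 1) ≤ bK B c + 1 := by
            rw [bK, bK, h5, Nat.succ_div]
            split_ifs <;> omega
          omega
        · have := hnew _ le_rfl h4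
          have := hK (by omega)
          omega
      · have := hnew e h2 h1
        have := hK (by omega)
        omega
    · rintro ⟨h1, h2⟩
      have h3 := bJ_le_bK hB h1
      have h6 := hK (by omega)
      by_cases h4 : bJ B (c + 1) ≤ bJ B c
      · have h5 : bJ B (c + 1) = bJ B c := le_antisymm h4 hmono
        refine Or.inr (Or.inl ⟨by omega, ?_⟩)
        have h8 : B ^ (bJ B c + 1) ∣ c + 1 := by
          rwa [sl, min_eq_right (by omega), ← hJ, h5] at hd
        have h7 : bK B (c + 1) = bJ B c + (c / B ^ (bJ B c + 1) + 1) - B ^ (bJ B c - 1) := by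
          rw [bK, h5, Nat.succ_div, if_pos h8]
        rw [bK]
        omega
      · have := hnew _ le_rfl h4
        by_cases h9 : bJ B (c + 1) ≤ e
        · exact Or.inl ⟨by omega, by omega⟩
        · exact Or.inr (Or.inr ⟨h9, by omega⟩)
  exact key _ hJ hK hd

theorem lay2_mk {α : Type} {H G D In Fz Act : (ℕ → α) → ℕ → Prop} (h1 : FS H) (h2 : FS G)
    (h3 : FS D) (h4 : FS In) (h5 : FS Fz) (h6 : FS Act) :
    FS fun τ t => (⟨H τ t, G τ t, D τ t, In τ t, Fz τ t, Act τ t⟩ : Ly) :=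
  (h1.pair (h2.pair (h3.pair (h4.pair (h5.pair h6))))).map fun p =>
    (⟨p.1, p.2.1, p.2.2.1, p.2.2.2.1, p.2.2.2.2.1, p.2.2.2.2.2⟩ : Ly)

theorem exists_lay0 (hB : 2 ≤ B) :
    ∃ Λ : (ℕ → Unit) → ℕ → Ly, FS Λ ∧ Λ (fun _ => ()) = lay B 0 := by
  have h1 : FS fun (_ : ℕ → Unit) t => B ∣ t := lay2_dvd (by omega)
  have h2 : FS fun (_ : ℕ → Unit) t => B ^ (2 * 0 + 2) ∣ t := lay2_dvd (by positivity)
  refine ⟨_, lay2_mk h1 h2 h1 h1 (lay2_none h2) (FS.pt fun _ => False), funext fun t => ?_⟩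
  refine Ly.ext ?_ rfl ?_ ?_ (propext (lay2_fz hB 0 t)) ?_
  · simp [lay]
  · simp [lay, sl]
  · simp [lay, sl, Nat.dvd_iff_mod_eq_zero]
  · refine propext ⟨False.elim, fun h => ?_⟩
    have h3 : 1 ≤ bJ B t := h.1
    have h4 : bK B t ≤ 0 := h.2
    have := bJ_le_bK hB h3
    omega

theorem exists_lay (hB : 2 ≤ B) :
    ∃ Λ : (ℕ → Ly) → ℕ → Ly, FS Λ ∧ ∀ e, Λ (lay B e) = lay B (e + 1) := by
  have hH := FS.pt fun l : Ly => l.H
  have hFz := FS.pt fun l : Ly => l.Fz
  have hAct := FS.pt fun l : Ly => l.Act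
  have h1 := hH.thin (B := B) (by omega)
  have h2 := (FS.pt fun l : Ly => l.G).thin (B := B ^ 2) (by positivity)
  have h3 := hFz.ite (FS.pt fun l : Ly => l.D) h1
  have h4 := hFz.ite (FS.pt fun l : Ly => l.In)
    ((lay2_none (FS.pt fun a : Prop => a)).rst h3 hH)
  have h6 := lay2_head.rst h3 (hAct.map₂ ((hAct.dl False).map₂
    (hFz.map₂ (hFz.dl False) fun a b => ¬ a ∧ b) Or) Or)
  refine ⟨_, lay2_mk h1 h2 h3 h4 (lay2_none h2) h6, fun e => ?_⟩
  have e1 : thin B (fun t => (lay B e t).H) = fun t => B ^ (e + 1 + 1) ∣ t := by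
    rw [pow_succ B (e + 1)]
    exact thin_dvd (by positivity)
  have e2 : thin (B ^ 2) (fun t => (lay B e t).G) = fun t => B ^ (2 * (e + 1) + 2) ∣ t := by
    rw [pow_add B (2 * (e + 1))]
    exact thin_dvd (by positivity)
  have e3 : (fun t => if (lay B e t).Fz then (lay B e t).D else thin B (fun t => (lay B e t).H) t)
      = fun t => (lay B (e + 1) t).D := by
    funext t
    rw [e1]
    split_ifs with h
    · exact congrArg (· ∣ t) (sl_succ h).symm
    · have h' : ¬ bJ B t ≤ e := h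
      show _ = (sl B (e + 1) t ∣ t)
      rw [sl, min_eq_left (by omega)]
  funext t
  refine Ly.ext (congrFun e1 t) (congrFun e2 t) (congrFun e3 t) ?_ ?_ ?_
  · show (if (lay B e t).Fz then (lay B e t).In else _) = _
    rw [e3, rst_lay hB]
    split_ifs with h
    · have h' : bJ B t ≤ e := h
      show (t % sl B e t < B ^ min e (bJ B t)) = (t % sl B (e + 1) t < B ^ min (e + 1) (bJ B t))
      rw [sl_succ h', min_eq_right h', min_eq_right (by omega)]
    · have h' : ¬ bJ B t ≤ e := h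
      have hd : B ^ (e + 1) ∣ bd B (e + 1) t := by
        refine dvd_trans ?_ (Nat.dvd_sub_mod (n := sl B (e + 1) t) t)
        rw [sl, min_eq_left (by omega)]
        exact pow_dvd_pow B (by omega)
      show _ = (t % sl B (e + 1) t < B ^ min (e + 1) (bJ B t))
      rw [min_eq_left (by omega), ← sub_bd]
      exact propext (lay2_lt (by positivity) hd _)
  · show (∀ s ≤ t, s = 0 ∨ ¬ thin (B ^ 2) (fun t => (lay B e t).G) s) = _
    rw [e2]
    exact propext (lay2_fz hB (e + 1) t)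
  · dsimp only
    rw [e3, rst_lay hB]
    exact propext (lay2_act hB e t)

end Pool.Agent.P.MP_c1ff4a_lc
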