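import Pool.Agent.P.MP_c1ff4a_lc.Elim
import Pool.Agent.P.MP_c1ff4a_lc.Post
import Pool.Agent.P.MP_c1ff4a_lc.Rev

/-! The two theorems. -/

set_option autoImplicit false

open Classical Polynomial

noncomputable section

namespace Pool.Agent.P.MP_c1ff4a_lc

lemma Main_left {α β : Type} {u u' : List α} {v v' : List β}
    (h : u.map Sum.inl ++ v.map Sum.inr = u'.map Sum.inl ++ v'.map Sum.inr) : u = u' ∧ v = v' := by
  have h1 := congrArg (List.filterMap Sum.getLeft?) h
  have h2 := congrArg (List.filterMap Sum.getRight?) h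
  simp only [List.filterMap_append, List.filterMap_map, Function.comp_def, Sum.getLeft?_inl,
    Sum.getLeft?_inr, Sum.getRight?_inl, Sum.getRight?_inr, List.filterMap_some,
    List.filterMap_none, List.append_nil, List.nil_append] at h1 h2
  exact ⟨h1, h2⟩

lemma Main_blocks {α β : Type} (f : α → β) (L : List (α × ℕ)) :
    blocks (L.map fun q => (f q.1, q.2)) = (blocks L).map f := by
  simp [blocks, List.flatMap_map, List.map_flatMap]

lemma Main_lift {α β : Type} (f : α → β) (xs : List α) : ∀ L : List (β × ℕ),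
    L.map Prod.fst = xs.map f → ∃ L' : List (α × ℕ), L = L'.map fun q => (f q.1, q.2) := by
  induction xs with
  | nil => exact fun L h => ⟨[], by simpa using h⟩
  | cons x xs ih =>
    rintro (_ | ⟨⟨a, n⟩, L⟩) h
    · simp at h
    · simp only [List.map_cons, List.cons.injEq] at h
      obtain ⟨L', rfl⟩ := ih L h.2
      exact ⟨(x, n) :: L', by simp [h.1]⟩

theorem bounded {σ : Type} [Finite σ] (M : OLIA σ) (T : ℕ → ℕ) (hT : M.Time T)
    {k : ℕ} (ws : Fin k → List σ) (hb : ∀ w ∈ M.lang, ∃ ns : Fin k → ℕ,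
      w = (List.ofFn fun i => (List.replicate (ns i) (ws i)).flatten).flatten) :
    ∃ (N : OLCA σ) (p : Polynomial ℕ), N.lang = M.lang ∧ N.Time fun n => p.eval (T n) := by
  by_cases h0 : M.q₀ ∈ M.F
  · obtain ⟨N, h1, h2⟩ := M.trivial h0
    exact ⟨N, 0, h1, by simpa using h2⟩
  obtain ⟨N₀, a1, a2⟩ := exists_post M h0 ws Eq
  obtain ⟨N₁, p, b1, b2⟩ := pad_elim_list ((List.finRange k).map Sum.inl) N₀
  obtain ⟨N, c1⟩ := N₁.comap (Function.Embedding.inr (α := Fin k) (β := σ))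
  have key : ∀ w ∈ M.lang, ∃ t ≤ (p.comp (C (k + 3) * X)).eval (T w.length), N.AccAt w t := by
    intro w hw
    obtain ⟨t, t1, t2⟩ := hT w hw
    obtain ⟨ns, e⟩ := hb w hw
    have t3 := M.le_of_acc h0 t2
    obtain ⟨L, hL⟩ : ∃ L : List (Fin k × ℕ),
      L = List.ofFn fun i => (i, if ws i = [] then 0 else ns i) := ⟨_, rfl⟩
    have e1 : (blocks L).flatMap ws = w := by
      rw [e, hL, blocks, List.flatMap_assoc, List.flatMap_def, List.map_ofFn]
      congr 2
      funext i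
      by_cases h : ws i = [] <;> simp [h, List.flatMap_def]
    have e2 : ∀ q ∈ L, q.2 ≤ w.length := fun q hq => by
      obtain ⟨i, rfl⟩ := List.mem_ofFn.1 (hL ▸ hq)
      have h1 := (List.sublist_flatten_of_mem (List.mem_ofFn.2 ⟨i, rfl⟩ :
        (List.replicate (ns i) (ws i)).flatten ∈ List.ofFn fun i =>
          (List.replicate (ns i) (ws i)).flatten)).length_le
      rw [← e] at h1
      split_ifs with h
      · exact Nat.zero_le _
      · refine le_trans ?_ h1
        simpa using Nat.le_mul_of_pos_right _ (List.length_pos_iff.2 h)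
    have e3 := Main_len L e2
    have e4 : L.length = k := by simp [hL]
    obtain ⟨t', d1, d2⟩ := b2 (w.map Sum.inr) (L.map fun q => (Sum.inl q.1, q.2)) _
      (fun h => M.not_acc_nil t (by rwa [List.map_eq_nil_iff.1 h] at t2))
      (by simp [hL, List.finRange, List.map_ofFn, Function.comp_def])
      (fun q hq => by
        obtain ⟨q', h, rfl⟩ := List.mem_map.1 hq
        rw [List.length_map]
        exact e2 q' h)
      (by rw [Main_blocks]; exact a2 _ w t (by rw [e1]; simp) (e1 ▸ t2))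
    refine ⟨t', d1.trans ?_, (c1 w t').2 d2⟩
    rw [eval_comp, eval_mul, eval_C, eval_X]
    refine Main_mono p ?_
    rw [List.length_map]
    rw [e4] at e3
    nlinarith [Nat.mul_le_mul_left k (t3.trans t1)]
  have hl : N.lang = M.lang := by
    refine Set.ext fun w => ⟨fun ⟨t, ht⟩ => ?_, fun hw => let ⟨t, _, h⟩ := key w hw; ⟨t, h⟩⟩
    obtain ⟨L, d1, d2⟩ := b1 _ ⟨t, (c1 w t).1 ht⟩
    obtain ⟨L', rfl⟩ := Main_lift _ _ L d1
    obtain ⟨u, v, d3, d4, d5⟩ := a1 _ d2
    rw [Main_blocks] at d3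
    rw [(Main_left d3).2, List.forall₂_eq_eq_eq.symm ▸ d4 |> fun h : v = _ => h]
    exact d5
  exact ⟨N, _, hl, fun w hw => key w (hl ▸ hw)⟩

theorem reversal : (∀ (σ : Type) [Finite σ] (M : OLIA σ) (T : ℕ → ℕ), M.Time T →
      ∃ (N : OLCA σ) (p : Polynomial ℕ), N.lang = M.lang ∧ N.Time fun n => p.eval (T n)) ↔
    ∀ (σ : Type) [Finite σ] (N : OLCA σ) (T : ℕ → ℕ), N.Time T →
      ∃ (N' : OLCA σ) (p : Polynomial ℕ), N'.lang = {w | w.reverse ∈ N.lang} ∧
        N'.Time fun n => p.eval (T n + n) := by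
  refine ⟨fun h σ _ N T hT => ?_, fun h σ _ M T hT => ?_⟩
  · obtain ⟨M, hM⟩ := exists_rev N
    have hl : M.lang = {w | w.reverse ∈ N.lang} := Set.ext fun w =>
      ⟨fun ⟨t, ht⟩ => let ⟨u, _, hu⟩ := (hM w t).1 ht; ⟨u, hu⟩,
        fun ⟨u, hu⟩ => ⟨_, (hM w _).2 ⟨u, rfl, hu⟩⟩⟩
    obtain ⟨N', p, h1, h2⟩ := h σ M (fun n => 2 * n + T n) fun w hw => by
      obtain ⟨u, a, b⟩ := hT w.reverse (hl ▸ hw :)
      rw [List.length_reverse] at a
      exact ⟨_, Nat.add_le_add_left a _, (hM w _).2 ⟨u, rfl, b⟩⟩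
    refine ⟨N', p.comp (C 2 * X), h1.trans hl, fun w hw => ?_⟩
    obtain ⟨t, a, b⟩ := h2 w hw
    refine ⟨t, a.trans ?_, b⟩
    simp only [eval_comp, eval_mul, eval_C, eval_X]
    exact Main_mono p (by omega)
  by_cases h0 : M.q₀ ∈ M.F
  · obtain ⟨N, h1, h2⟩ := M.trivial h0
    exact ⟨N, 0, h1, by simpa using h2⟩
  obtain ⟨N₁, a1, a2⟩ := exists_post M h0 (fun a => [a]) fun (_ : Unit) _ => True
  simp only [List.flatMap_singleton'] at a1 a2
  have a3 : ∀ (v : List Unit) (u : List σ), List.Forall₂ (fun _ _ => True) v u ↔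
      v.length = u.length := fun v u => by simp [List.forall₂_iff_zip]
  simp only [a3] at a1 a2
  obtain ⟨N₂, p₁, b1, b2⟩ := h _ N₁ (fun m => m + T (m / 2)) fun z hz => by
    obtain ⟨u, v, rfl, d1, d2⟩ := a1 z hz
    obtain ⟨t, d3, d4⟩ := hT u d2
    refine ⟨_, ?_, a2 u v t d1 d4⟩
    simp only [List.length_append, List.length_map, d1]
    rw [show (u.length + u.length) / 2 = u.length by omega]
    omega
  obtain ⟨N₃, c, c1, c2⟩ := pad_elim N₂ (Sum.inr ())
  obtain ⟨N₄, d1⟩ := N₃.comap (Function.Embedding.inl (α := σ) (β := Unit))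
  have e0 : ∀ (s : ℕ) (w : List σ), (List.replicate s (Sum.inr ()) ++ w.map Sum.inl).reverse =
      w.reverse.map Sum.inl ++ (List.replicate s ()).map Sum.inr := fun s w => by simp
  have key : ∀ w : List σ, w.reverse ∈ M.lang →
      ∃ t ≤ c * (p₁.eval (T w.length + 4 * w.length) + w.length + 1) ^ 2, N₄.AccAt w t := by
    intro w hw
    obtain ⟨t, -, ht⟩ := hT _ hw
    obtain ⟨t₂, f1, f2⟩ := b2 (List.replicate w.length (Sum.inr ()) ++ w.map Sum.inl) (by
      rw [b1, Set.mem_ofPred_eq, e0]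
      exact ⟨_, a2 _ _ t (by simp) ht⟩)
    obtain ⟨t₃, f3, f4⟩ := c2 (w.map Sum.inl) w.length t₂ (fun h => M.not_acc_nil t (by
      rwa [List.map_eq_nil_iff.1 h] at ht)) (by simp) f2
    refine ⟨t₃, f3.trans ?_, (d1 w t₃).2 f4⟩
    simp only [List.length_append, List.length_replicate, List.length_map] at f1 ⊢
    rw [show (w.length + w.length) / 2 = w.length by omega] at f1
    have := f1.trans (Main_mono p₁ (b := T w.length + 4 * w.length) (by omega))
    gcongr
  have hl : ∀ w, w ∈ N₄.lang ↔ w.reverse ∈ M.lang := fun w => by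
    refine ⟨fun ⟨t, ht⟩ => ?_, fun hw => let ⟨t, _, h⟩ := key w hw; ⟨t, h⟩⟩
    obtain ⟨-, s, hs⟩ := c1 _ ⟨t, (d1 w t).1 ht⟩
    rw [b1, Set.mem_ofPred_eq] at hs
    obtain ⟨u, v, f1, -, f2⟩ := a1 _ hs
    exact (Main_left ((e0 s w).symm.trans f1)).1 ▸ f2
  obtain ⟨N₅, p₂, g1, g2⟩ := h σ N₄ (fun n => c * (p₁.eval (T n + 4 * n) + n + 1) ^ 2)
    fun w hw => key w ((hl w).1 hw)
  have hl' : N₅.lang = M.lang := by
    rw [g1]
    ext w
    rw [Set.mem_ofPred_eq, hl, List.reverse_reverse]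
  refine ⟨N₅, p₂.comp (C c * (p₁.comp (C 5 * X) + X + 1) ^ 2 + X), hl', fun w hw => ?_⟩
  obtain ⟨t, f1, f2⟩ := g2 w hw
  obtain ⟨s, f3, f4⟩ := hT w (hl' ▸ hw)
  have f5 := (M.le_of_acc h0 f4).trans f3
  refine ⟨t, f1.trans ?_, f2⟩
  simp only [eval_comp, eval_mul, eval_C, eval_X, eval_add, eval_pow, eval_one]
  have := Main_mono p₁ (show T w.length + 4 * w.length ≤ 5 * T w.length by omega)
  refine Main_mono p₂ ?_
  gcongr

end Pool.Agent.P.MP_c1ff4a_lc
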