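import Pool.Agent.P.MP_c1ff4a_lc.FS

/-! The machines that act inside one section: a queue of letters followed by a work area. -/

set_option autoImplicit false

open Classical

noncomputable section

namespace Pool.Agent.P.MP_c1ff4a_lc

variable {A Γ : Type}

/-- appending a letter to the word written at the start of the tape -/
theorem exists_app [Finite A] (a : A) : ∃ P : (ℕ → Option A) → ℕ → Option A, FS P ∧
    ∀ (τ : ℕ → Option A) (l : List A), (∀ u ≤ l.length, τ u = l[u]?) →
      P τ = fun u => (l ++ [a])[u]? := by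
  refine ⟨_, (FS.pt fun o : Option A => o ≠ none).allLt.ite
      (FS.pt fun o : Option A => if o = none then some a else o) (FS.pt fun _ => none),
    fun τ l h => funext fun u => ?_⟩
  rcases lt_trichotomy u l.length with hu | rfl | hu
  · rw [if_pos (show ∀ s < u, τ s ≠ none from fun s hs => by rw [h s (by omega)]; simp; omega),
      h u hu.le, if_neg (by simp [hu]), List.getElem?_append_left hu]
  · rw [if_pos (show ∀ s < l.length, τ s ≠ none from fun s hs => by rw [h s hs.le]; simp [hs]),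
      h _ le_rfl]
    simp
  · rw [if_neg fun a : ∀ s < u, τ s ≠ none => a _ hu (by rw [h _ le_rfl]; simp)]
    exact (List.getElem?_eq_none (by simp; omega)).symm

/-- running the sweep chosen on the first `m` positions over the remaining positions -/
theorem exists_aft [Finite A] [Finite Γ] {Φ : A → (ℕ → Γ) → ℕ → Γ} (hΦ : ∀ a, FS (Φ a)) :
    ∃ P : (ℕ → Prop × Option A × Γ) → ℕ → Γ, FS P ∧
      ∀ (τ : ℕ → Prop × Option A × Γ) (m : ℕ), (∀ u, (τ u).1 ↔ u < m) →
        (∀ u < m, P τ u = (τ u).2.2) ∧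
        ((∀ u < m, (τ u).2.1 = none) → ∀ u, P τ u = (τ u).2.2) ∧
        ∀ s < m, ∀ a, (τ s).2.1 = some a → (∀ u, s < u → u < m → (τ u).2.1 = none) →
          ∀ u, P τ (m + u) = Φ a (fun v => (τ (m + v)).2.2) u := by
  obtain ⟨nx, hnx⟩ : ∃ nx : Option A → Prop × Option A × Γ → Option A,
    nx = fun s c => if c.1 ∧ c.2.1 ≠ none then c.2.1 else s := ⟨_, rfl⟩
  have h1 : FS fun τ : ℕ → Prop × Option A × Γ => sc none nx τ := (FS.pt id).sc none nx
  have h2 := FS.pi fun a => (hΦ a).rst ((FS.pt fun c : Prop × Option A × Γ => c.1).dl True)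
    (FS.pt fun c : Prop × Option A × Γ => c.2.2)
  refine ⟨_, (FS.pt fun c : Prop × Option A × Γ => c.1).ite (FS.pt fun c => c.2.2)
    ((h1.pair (FS.pt fun c => c.2.2)).map₂ h2 fun q f => q.1.elim q.2 f), fun τ m h => ?_⟩
  have e1 : ∀ s v o, sc none nx τ s = o → (∀ u, s ≤ u → u < m → (τ u).2.1 = none) →
      sc none nx τ (s + v) = o := fun s v o a b => by
    induction v with
    | zero => exact a
    | succ v ih =>
      rw [← add_assoc, sc, ih, hnx]
      exact if_neg fun c => c.2 (b _ (by omega) ((h _).1 c.1))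
  refine ⟨fun u hu => if_pos ((h u).2 hu), fun a u => ?_, fun s hs a h1 h2 u => ?_⟩
  · have := e1 0 u none rfl fun u _ => a u
    rw [zero_add] at this
    simp only [this]
    split_ifs <;> rfl
  · have := e1 (s + 1) (m + u - (s + 1)) (some a) (by
      rw [sc, hnx]
      exact (if_pos ⟨(h s).2 hs, by simp [h1]⟩).trans h1) fun u hu => h2 u hu
    rw [show s + 1 + (m + u - (s + 1)) = m + u by omega] at this
    simp only [this]
    rw [if_neg (by rw [h]; omega), Option.elim_some, rst_eq (b := m) (Nat.le_add_right _ _),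
      Nat.add_sub_cancel_left]
    · obtain ⟨m, rfl⟩ : ∃ k, m = k + 1 := ⟨m - 1, by omega⟩
      exact Or.inr ((h m).2 m.lt_succ_self)
    · rintro (_ | v) b1 b2
      · omega
      · exact fun c => by have := (h v).1 c; omega

/-- section symbols -/
@[ext] structure Sec (A Γ : Type) where
  V : Option A
  Dn : Prop
  W : Γ

instance [Finite A] [Finite Γ] : Finite (Sec A Γ) :=
  Finite.of_injective (fun l : Sec A Γ => (l.V, l.Dn, l.W)) fun a b h => by
    simp only [Prod.mk.injEq] at h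
    exact Sec.ext h.1 h.2.1 h.2.2

/-- the content of a section with queue `l` of which `r` letters are processed -/
def ide (Φ : A → (ℕ → Γ) → ℕ → Γ) (γ₀ : Γ) (m : ℕ) (l : List A) (r u : ℕ) : Sec A Γ where
  V := l[u]?
  Dn := u < r
  W := if u < m then γ₀ else run Φ (fun _ => γ₀) (l.take r) (u - m)

variable [Finite A] [Finite Γ] {Φ : A → (ℕ → Γ) → ℕ → Γ}

omit [Finite Γ] in
/-- sections that are not active -/
theorem exists_un (Φ : A → (ℕ → Γ) → ℕ → Γ) (γ₀ : Γ) (x a : A) (d : ℕ) :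
    ∃ P : (ℕ → Sec A Γ) → ℕ → Sec A Γ, FS P ∧ ∀ (τ : ℕ → Sec A Γ) (l : List A) (m : ℕ),
      (∀ u ≤ l.length, (τ u).V = l[u]?) →
        P τ = ide Φ γ₀ m (List.replicate d x ++ (l ++ [a])) 0 := by
  obtain ⟨P, p1, p2⟩ := exists_app a
  have h1 : FS fun τ : ℕ → Option A => dl (some x) τ := (FS.pt id).dl _
  have h2 : ∀ (l : List A) (d : ℕ), (fun τ : ℕ → Option A => dl (some x) τ)^[d] (fun u => l[u]?) =
      fun u => (List.replicate d x ++ l)[u]? := fun l d => by
    induction d with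
    | zero => rfl
    | succ d ih =>
      rw [Function.iterate_succ_apply', ih]
      funext u
      cases u <;> rfl
  refine ⟨_, ((h1.iter d).comp (p1.comp (FS.pt Sec.V))).map fun v => Sec.mk v False γ₀,
    fun τ l m h => funext fun u => ?_⟩
  simp only [p2 _ l h, h2]
  simp [ide]

/-- one virtual sweep -/
theorem exists_micro (hΦ : ∀ a, FS (Φ a)) (γ₀ : Γ) :
    ∃ P : (ℕ → Prop × Sec A Γ) → ℕ → Prop × Sec A Γ, FS P ∧ ∀ (m : ℕ) (l : List A) (r : ℕ),
      r ≤ l.length → r ≤ m → P (fun u => (u < m, ide Φ γ₀ m l r u)) =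
        fun u => (u < m, ide Φ γ₀ m l (min (r + 1) (min l.length m)) u) := by
  obtain ⟨P, p1, p2⟩ := exists_aft hΦ
  have h1 : FS fun (τ : ℕ → Prop × Sec A Γ) u => (∀ s < u, (τ s).2.Dn) ∧ ¬ (τ u).2.Dn ∧ (τ u).1 ∧
      (τ u).2.V ≠ none := (FS.pt fun c : Prop × Sec A Γ => c.2.Dn).allLt.map₂
    (FS.pt fun c : Prop × Sec A Γ => ¬ c.2.Dn ∧ c.1 ∧ c.2.V ≠ none) And
  have h2 := h1.pair (FS.pt id)
  refine ⟨_, h2.map₂ (p1.comp (h2.map fun q => (q.2.1, if q.1 then q.2.2.V else none, q.2.2.W)))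
    fun q W => (q.2.1, Sec.mk q.2.2.V (q.2.2.Dn ∨ q.1) W), fun m l r a b => funext fun u => ?_⟩
  have go : ∀ u, ((∀ s < u, (ide Φ γ₀ m l r s).Dn) ∧ ¬ (ide Φ γ₀ m l r u).Dn ∧ u < m ∧
      (ide Φ γ₀ m l r u).V ≠ none) ↔ u = r ∧ r < m ∧ r < l.length := fun u => by
    simp only [ide, ne_eq, List.getElem?_eq_none_iff, not_le, not_lt]
    refine ⟨fun ⟨c1, c2, c3, c4⟩ => ?_, fun ⟨c1, c2, c3⟩ => by subst c1; simp [c2, c3]⟩
    have := c1 r
    omega
  simp only [id, go]
  obtain ⟨q1, q2, q3⟩ := p2 (fun u => (u < m, if u = r ∧ r < m ∧ r < l.length then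
    (ide Φ γ₀ m l r u).V else none, (ide Φ γ₀ m l r u).W)) m fun _ => Iff.rfl
  refine Prod.ext rfl (Sec.ext rfl (propext (by simp only [ide]; omega)) ?_)
  show P _ u = _
  by_cases c : r < m ∧ r < l.length
  · rw [show min (r + 1) (min l.length m) = r + 1 by omega]
    rcases lt_or_ge u m with d | d
    · rw [q1 u d]
      simp [ide, d]
    · obtain ⟨u, rfl⟩ := Nat.exists_eq_add_of_le d
      rw [q3 r c.1 l[r] (by simp [ide, c]) fun u h _ => if_neg (by omega)]
      simp only [ide, add_lt_iff_neg_left, not_lt_zero, if_false, Nat.add_sub_cancel_left]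
      rw [← List.take_append_getElem c.2, run_snoc]
  · rw [show min (r + 1) (min l.length m) = r by omega, q2 fun u _ => if_neg (by tauto)]

/-- active sections -/
theorem exists_ac (hΦ : ∀ a, FS (Φ a)) (γ₀ : Γ) (acc : Set Γ) (a : A) :
    ∃ P : (ℕ → Prop × Sec A Γ) → ℕ → Sec A Γ × Prop, FS P ∧ ∀ (m : ℕ) (l : List A) (r : ℕ),
      r ≤ l.length → r ≤ m → P (fun u => (u < m, ide Φ γ₀ m l r u)) = fun u =>
        (ide Φ γ₀ m (l ++ [a]) (min (r + 4) (min (l.length + 1) m)) u,
          m ≤ u ∧ l.length + 1 ≤ min (r + 4) m ∧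
            run Φ (fun _ => γ₀) (l ++ [a]) (u - m) ∈ acc) := by
  obtain ⟨P, p1, p2⟩ := exists_app a
  obtain ⟨M, m1, m2⟩ := exists_micro hΦ γ₀
  have h1 := (m1.iter 4).comp ((FS.pt id).map₂ (p1.comp (FS.pt fun c : Prop × Sec A Γ => c.2.V))
    fun c v => (c.1, Sec.mk v c.2.Dn c.2.W))
  refine ⟨_, h1.map₂ (h1.map fun c => c.2.V ≠ none → c.2.Dn).allLe
    fun c b => (c.2, ¬ c.1 ∧ b ∧ c.2.W ∈ acc), fun m l r a1 a2 => funext fun u => ?_⟩
  have e1 : (fun u => (u < m, Sec.mk (P (fun u => (ide Φ γ₀ m l r u).V) u) (ide Φ γ₀ m l r u).Dn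
      (ide Φ γ₀ m l r u).W)) = fun u => (u < m, ide Φ γ₀ m (l ++ [a]) r u) := by
    rw [p2 (fun u => (ide Φ γ₀ m l r u).V) l fun _ _ => rfl]
    simp only [ide, List.take_append_of_le_length a1]
  have e2 : ∀ k, M^[k] (fun u => (u < m, ide Φ γ₀ m (l ++ [a]) r u)) =
      fun u => (u < m, ide Φ γ₀ m (l ++ [a]) (min (r + k) (min (l.length + 1) m)) u) := fun k => by
    induction k with
    | zero => rw [show min (r + 0) (min (l.length + 1) m) = r by omega]; rfl
    | succ k ih =>
      rw [Function.iterate_succ_apply', ih, m2 _ _ _ (by simp) (by omega), List.length_append,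
        List.length_singleton]
      funext u
      congr 2
      omega
  simp only [id, e1, e2]
  refine Prod.ext rfl (propext (and_congr not_lt Iff.rfl |>.trans (and_congr_right fun hu => ?_)))
  have e3 : (∀ s ≤ u, (ide Φ γ₀ m (l ++ [a]) (min (r + 4) (min (l.length + 1) m)) s).V ≠ none →
      (ide Φ γ₀ m (l ++ [a]) (min (r + 4) (min (l.length + 1) m)) s).Dn) ↔
      l.length + 1 ≤ min (r + 4) m := by
    simp only [ide, ne_eq, List.getElem?_eq_none_iff, List.length_append, List.length_singleton]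
    refine ⟨fun h => ?_, fun h s _ _ => by omega⟩
    have := h (min (r + 4) (min (l.length + 1) m)) (by omega)
    omega
  rw [e3]
  refine and_congr_right fun h => ?_
  simp only [ide]
  rw [if_neg (by omega), List.take_of_length_le (by simp; omega)]

end Pool.Agent.P.MP_c1ff4a_lc
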