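import Pool.Agent.P.MP_c1ff4a_lc.Lay2
import Pool.Agent.P.MP_c1ff4a_lc.Sec

/-! Removing a block of equal letters in front of the input: sweeps. -/

set_option autoImplicit false

open Classical

noncomputable section

namespace Pool.Agent.P.MP_c1ff4a_lc

variable {A Γ : Type} [Finite A] [Finite Γ] {Φ : A → (ℕ → Γ) → ℕ → Γ}

/-- the queue of a section -/
def qu (x : A) (B p : ℕ) (w : List A) (t : ℕ) : List A :=
  List.replicate (p + 4 * (min (w.length + 1) (bK B t) - bJ B t)) x ++ w

/-- the number of processed letters -/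
def pr (x : A) (B p : ℕ) (w : List A) (t : ℕ) : ℕ :=
  min (4 * (w.length + 1 - bK B t)) (min (qu x B p w t).length (B ^ bJ B t))

/-- the content of the section of `t` -/
def idl (Φ : A → (ℕ → Γ) → ℕ → Γ) (γ₀ : Γ) (x : A) (B p : ℕ) (w : List A) (t : ℕ) :
    ℕ → Sec A Γ := ide Φ γ₀ (B ^ bJ B t) (qu x B p w t) (pr x B p w t)

omit [Finite A] [Finite Γ] in
lemma idl_congr (γ₀ : Γ) (x : A) {B : ℕ} (p : ℕ) (w : List A) {s t : ℕ} (h1 : bJ B s = bJ B t)
    (h2 : bK B s = bK B t) : idl Φ γ₀ x B p w s = idl Φ γ₀ x B p w t := by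
  simp only [idl, pr, qu, h1, h2]

theorem pad_sweep (hΦ : ∀ a, FS (Φ a)) (γ₀ : Γ) (acc : Set Γ) (x : A) {B p : ℕ} (hB : 2 ≤ B)
    (hp : p ≤ 3) : ∃ (Ψ : (ℕ → Unit) → ℕ → Ly × Sec A Γ × Prop)
      (Φ' : A → (ℕ → Ly × Sec A Γ × Prop) → ℕ → Ly × Sec A Γ × Prop), FS Ψ ∧ (∀ a, FS (Φ' a)) ∧
      ∀ w : List A, (∀ t, (run Φ' (Ψ fun _ => ()) w t).2.2 →
        ∃ s u, run Φ (fun _ => γ₀) (List.replicate s x ++ w) u ∈ acc) ∧
      ∀ j k u, w ≠ [] → 1 ≤ j → 2 * (j + k) ≤ w.length + 2 → p + 4 * k ≤ w.length →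
        2 * w.length + u < B ^ j →
        run Φ (fun _ => γ₀) (List.replicate (p + 4 * k) x ++ w) u ∈ acc →
        ∃ t < B ^ (2 * j + 2), (run Φ' (Ψ fun _ => ()) w t).2.2 := by
  obtain ⟨Λ₀, l0, l1⟩ := exists_lay0 hB
  obtain ⟨Λ, l2, l3⟩ := exists_lay hB
  choose U u1 u2 using exists_un Φ γ₀ x
  choose P p1 p2 using exists_ac hΦ γ₀ acc
  have hL : FS fun τ : ℕ → Ly × Sec A Γ × Prop => Λ fun s => (τ s).1 := l2.comp (FS.pt Prod.fst)
  have hD := hL.map Ly.D
  have hS : FS fun (τ : ℕ → Ly × Sec A Γ × Prop) s => (τ s).2.1 :=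
    FS.pt fun z : Ly × Sec A Γ × Prop => z.2.1
  have hP := fun a => (p1 a).rst hD (FS.pt fun z : Ly × Sec A Γ × Prop => (z.1.In, z.2.1))
  have h0 := l2.comp l0
  obtain ⟨Ψ, hΨ⟩ : ∃ Ψ : (ℕ → Unit) → ℕ → Ly × Sec A Γ × Prop, Ψ = fun τ t => (Λ (Λ₀ τ) t,
    ⟨rst (fun _ u => (List.replicate p x)[u]?) (fun s => (Λ (Λ₀ τ) s).D) τ t, False, γ₀⟩, False) :=
    ⟨_, rfl⟩
  obtain ⟨Φ', hΦ'⟩ : ∃ Φ' : A → (ℕ → Ly × Sec A Γ × Prop) → ℕ → Ly × Sec A Γ × Prop,
    Φ' = fun a τ t => (Λ (fun s => (τ s).1) t,
      if (τ t).1.Act then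
        (rst (P a) (fun s => (Λ (fun s => (τ s).1) s).D) (fun s => ((τ s).1.In, (τ s).2.1)) t).1
      else if (τ t).1.Fz then
        rst (U a 4) (fun s => (Λ (fun s => (τ s).1) s).D) (fun s => (τ s).2.1) t
      else rst (U a 0) (fun s => (Λ (fun s => (τ s).1) s).D) (fun s => (τ s).2.1) t,
      (τ t).1.Act ∧
        (rst (P a) (fun s => (Λ (fun s => (τ s).1) s).D) (fun s => ((τ s).1.In, (τ s).2.1)) t).2) :=
    ⟨_, rfl⟩
  -- one step
  have step : ∀ (w : List A) (a : A) (τ : ℕ → Ly × Sec A Γ × Prop),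
      (fun s => (τ s).1) = lay B (w.length + 1) →
      (∀ t, 1 ≤ bJ B t → (τ t).2.1 = idl Φ γ₀ x B p w t (t - bd B (w.length + 1) t)) →
      (fun s => (Φ' a τ s).1) = lay B (w.length + 1 + 1) ∧
      (∀ t, 1 ≤ bJ B t → (Φ' a τ t).2.1 =
        idl Φ γ₀ x B p (w ++ [a]) t (t - bd B (w.length + 1 + 1) t)) ∧
      ∀ t, (Φ' a τ t).2.2 ↔ (1 ≤ bJ B t ∧ bK B t ≤ w.length + 1) ∧
        B ^ bJ B t ≤ t - bd B (w.length + 1) t ∧
        (qu x B p w t).length + 1 ≤ min (pr x B p w t + 4) (B ^ bJ B t) ∧
        run Φ (fun _ => γ₀) (qu x B p w t ++ [a]) (t - bd B (w.length + 1) t - B ^ bJ B t) ∈ acc := by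
    intro w a τ e1 e2
    have e3 : ∀ s, (τ s).1 = lay B (w.length + 1) s := congrFun e1
    have fz : ∀ t, 1 ≤ bJ B t → bJ B t ≤ w.length + 1 → ∀ u ≤ t - bd B (w.length + 1) t,
        (τ (bd B (w.length + 1) t + u)).2.1 = idl Φ γ₀ x B p w t u ∧
        ((τ (bd B (w.length + 1) t + u)).1.In = (u < B ^ bJ B t)) := fun t h1 h2 u hu => by
      have a1 := bd_le B (w.length + 1) t
      have a2 := lt_bd_add hB (w.length + 1) t
      have a3 := bJ_sec hB (Nat.le_add_right _ u) (show _ < bd B (w.length + 1) t + _ by omega)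
      have a4 := bK_sec hB h2 (Nat.le_add_right _ u) (show _ < bd B (w.length + 1) t + _ by omega)
      have a5 := bd_sec hB (Nat.le_add_right _ u) (show _ < bd B (w.length + 1) t + _ by omega)
      refine ⟨by rw [e2 _ (a3 ▸ h1), a5, Nat.add_sub_cancel_left, idl_congr γ₀ x p w a3 a4], ?_⟩
      rw [e3]
      show (_ % _ < _) = _
      rw [← sub_bd, a5, Nat.add_sub_cancel_left, a3, min_eq_right h2]
    have ac : ∀ t, 1 ≤ bJ B t → bK B t ≤ w.length + 1 →
        rst (P a) (fun s => (lay B (w.length + 1 + 1) s).D) (fun s => ((τ s).1.In, (τ s).2.1)) t =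
          P a (fun u => (u < B ^ bJ B t, idl Φ γ₀ x B p w t u)) (t - bd B (w.length + 1) t) :=
      fun t h1 h2 => by
        have h3 := (bJ_le_bK hB h1).trans h2
        rw [rst_lay hB, bd_succ h3]
        exact (p1 a).causal fun u hu => Prod.ext (fz t h1 h3 u hu).2 (fz t h1 h3 u hu).1
    have pr1 : ∀ t, pr x B p w t ≤ (qu x B p w t).length := fun t => by unfold pr; omega
    have pr2 : ∀ t, pr x B p w t ≤ B ^ bJ B t := fun t => by unfold pr; omega
    subst hΦ'
    simp only [l3, e3]
    refine ⟨trivial, fun t h1 => ?_, fun t => and_congr_right fun h => ?_⟩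
    · have h2 := bJ_le_bK hB h1
      split_ifs with b1 b2
      · have b3 : bK B t ≤ w.length + 1 := b1.2
        have := ac t h1 b3
        simp only [e3] at this
        rw [this, idl, p2 a _ _ _ (pr1 t) (pr2 t), bd_succ (h2.trans b3), idl]
        have c1 : qu x B p (w ++ [a]) t = qu x B p w t ++ [a] := by
          simp only [qu, List.length_append, List.length_singleton, List.append_assoc]
          rw [min_eq_right b3, min_eq_right (by omega)]
        have c2 : pr x B p (w ++ [a]) t =
            min (pr x B p w t + 4) (min ((qu x B p w t).length + 1) (B ^ bJ B t)) := by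
          simp only [pr, c1, List.length_append, List.length_singleton]
          omega
        rw [c1, c2]
      · have b3 : ¬ bK B t ≤ w.length + 1 := fun h => b1 ⟨h1, h⟩
        have b4 : bJ B t ≤ w.length + 1 := b2
        rw [rst_lay hB, bd_succ b4, (u1 a 4).causal fun u hu => (fz t h1 b4 u hu).1,
          u2 a 4 _ (qu x B p w t) (B ^ bJ B t) fun _ _ => rfl, idl]
        have c1 : qu x B p (w ++ [a]) t = List.replicate 4 x ++ (qu x B p w t ++ [a]) := by
          simp only [qu, List.length_append, List.length_singleton, List.append_assoc]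
          rw [← List.append_assoc (List.replicate 4 x), ← List.replicate_add]
          congr 2
          omega
        have c2 : pr x B p (w ++ [a]) t = 0 := by
          simp only [pr, List.length_append, List.length_singleton]
          omega
        rw [c1, c2]
      · have b4 : w.length + 1 < bJ B t := not_le.1 b2
        have c0 : ∀ s, bJ B s = bJ B t → qu x B p w s = List.replicate p x ++ w := fun s hs => by
          rw [qu, show min (w.length + 1) (bK B s) - bJ B s = 0 by omega]
          rfl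
        rw [rst_lay hB, u2 a 0 _ (List.replicate p x ++ w) (B ^ bJ B t) fun u hu => ?_, idl]
        · have c1 : qu x B p (w ++ [a]) t =
              List.replicate 0 x ++ (List.replicate p x ++ w ++ [a]) := by
            rw [qu, List.length_append, List.length_singleton,
              show min (w.length + 1 + 1) (bK B t) - bJ B t = 0 by omega]
            simp
          have c2 : pr x B p (w ++ [a]) t = 0 := by
            simp only [pr, List.length_append, List.length_singleton]
            omega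
          rw [c1, c2]
        · have d1 : u < B ^ (w.length + 1 + 1) := by
            have := Nat.pow_le_pow_left hB (w.length + 1 + 1)
            have := Nat.lt_two_pow_self (n := w.length)
            simp only [List.length_append, List.length_replicate] at hu
            rw [pow_succ 2, pow_succ 2] at *
            omega
          obtain ⟨d2, d3⟩ := bd_coarse hB b4 d1
          rw [e2 _ (d2 ▸ h1), d3, Nat.add_sub_cancel_left, idl, c0 _ d2]
          rfl
    · have := ac t h.1 h.2
      simp only [e3] at this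
      rw [this, idl, p2 a _ _ _ (pr1 t) (pr2 t)]
  have inv : ∀ w : List A, (fun s => (run Φ' (Ψ fun _ => ()) w s).1) = lay B (w.length + 1) ∧
      ∀ t, 1 ≤ bJ B t → (run Φ' (Ψ fun _ => ()) w t).2.1 =
        idl Φ γ₀ x B p w t (t - bd B (w.length + 1) t) := fun w => by
    induction w using List.reverseRecOn with
    | nil =>
      subst hΨ
      simp only [run_nil, l1, l3, List.length_nil]
      refine ⟨trivial, fun t h1 => ?_⟩
      have h2 := bJ_le_bK hB h1
      have c1 : qu x B p [] t = List.replicate p x := by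
        rw [qu, List.length_nil, show min (0 + 1) (bK B t) - bJ B t = 0 by omega]
        simp
      have c2 : pr x B p [] t = 0 := by
        simp only [pr, List.length_nil]
        omega
      rw [rst_lay hB, idl, c1, c2]
      simp [ide]
    | append_singleton w a ih =>
      rw [run_snoc, List.length_append]
      exact ⟨(step w a _ ih.1 ih.2).1, (step w a _ ih.1 ih.2).2.1⟩
  refine ⟨Ψ, Φ', ?_, fun a => ?_, fun w => ⟨fun t ht => ?_, fun j k u h1 h2 h3 h4 h5 h6 => ?_⟩⟩
  · subst hΨ
    exact h0.map₂ ((FS.list (List.replicate p x)).rst (h0.map Ly.D) (FS.pt id))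
      fun a b => (a, Sec.mk b False γ₀, False)
  · subst hΦ'
    exact hL.pair ((((FS.pt fun z : Ly × Sec A Γ × Prop => z.1.Act).ite ((hP a).map Prod.fst)
      ((FS.pt fun z : Ly × Sec A Γ × Prop => z.1.Fz).ite ((u1 a 4).rst hD hS)
        ((u1 a 0).rst hD hS)))).pair ((FS.pt fun z : Ly × Sec A Γ × Prop => z.1.Act).map₂
          ((hP a).map Prod.snd) And))
  · induction w using List.reverseRecOn with
    | nil => subst hΨ; exact ht.elim
    | append_singleton w a _ =>
      rw [run_snoc, (step w a _ (inv w).1 (inv w).2).2.2, qu, List.append_assoc] at ht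
      exact ⟨_, _, ht.2.2.2⟩
  · induction w using List.reverseRecOn with
    | nil => exact (h1 rfl).elim
    | append_singleton w a _ =>
      rw [List.length_append, List.length_singleton] at h3 h4 h5
      have a1 := Nat.mul_le_mul_left (B ^ j) hB
      obtain ⟨t, t1, t2, t3, t4⟩ := exists_pos hB h2 (k := k) (u := B ^ j + u) (by omega)
        (by rw [pow_succ]; omega)
      have c1 : qu x B p w t = List.replicate (p + 4 * k) x ++ w := by
        rw [qu, t2, t3, show min (w.length + 1) (j + k) - j = k by omega]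
      refine ⟨t, t1, ?_⟩
      rw [run_snoc, (step w a _ (inv w).1 (inv w).2).2.2, t4 _ (by omega), pr, c1, t2, t3,
        Nat.add_sub_cancel_left, List.append_assoc, List.length_append, List.length_replicate]
      exact ⟨by omega, by omega, by omega, h6⟩

end Pool.Agent.P.MP_c1ff4a_lc
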