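import Pool.Agent.P.MP_c1ff4a_lc.CircB
import Pool.Agent.P.MP_c1ff4a_lc.Post

/-! Many short inputs are run against one stream. -/

set_option autoImplicit false

open Classical

noncomputable section

namespace Pool.Agent.P.MP_c1ff4a_lc

variable {σ Γ : Type}

/-- a stream that starts at position `D` -/
def off (D : ℕ) (γ : Γ) (ρ : ℕ → Γ) (u : ℕ) : Γ := if u < D then γ else ρ (u - D)

lemma dl_off (D : ℕ) (γ : Γ) (ρ : ℕ → Γ) : dl γ (off D γ ρ) = off (D + 1) γ ρ := by
  funext u
  cases u <;> simp [dl, off]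

lemma off_add (D : ℕ) (γ : Γ) (ρ : ℕ → Γ) (u : ℕ) : off D γ ρ (D + u) = ρ u := by simp [off]

lemma exists_offs [Finite σ] [Finite Γ] {Φ : σ → (ℕ → Γ) → ℕ → Γ} (hΦ : ∀ a, FS (Φ a)) :
    ∃ P : (ℕ → Prop × Option σ × Γ) → ℕ → Γ, FS P ∧ ∀ (D : ℕ) (γ : Γ) (ρ : ℕ → Γ)
      (V : ℕ → Option σ), ((∀ u ≤ D, V u = none) →
        P (fun u => (u < D + 1, V u, off (D + 1) γ ρ u)) = off (D + 1) γ ρ) ∧
      ∀ a, V D = some a →
        P (fun u => (u < D + 1, V u, off (D + 1) γ ρ u)) = off (D + 1) γ (Φ a ρ) := by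
  obtain ⟨P, h1, h2⟩ := exists_aft hΦ
  refine ⟨P, h1, fun D γ ρ V => ?_⟩
  obtain ⟨a1, a2, a3⟩ := h2 (fun u => (u < D + 1, V u, off (D + 1) γ ρ u)) (D + 1)
    fun _ => Iff.rfl
  refine ⟨fun h => funext (a2 fun u hu => h u (by omega)), fun a h => funext fun u => ?_⟩
  rcases lt_or_ge u (D + 1) with hu | hu
  · rw [a1 u hu]
    simp [off, hu]
  · obtain ⟨v, rfl⟩ := Nat.exists_eq_add_of_le hu
    rw [a3 D (by omega) a h (fun u _ _ => by omega) v, off_add]
    simp only [off_add]

/-- data, pointer, the two simulated words, the recorded words, the number of letters -/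
structure Bs (σ : Type) where
  x : List Bool
  k : ℕ
  h : List σ
  w : List σ
  S : List (List σ)
  n : ℕ

/-- the effect of a letter: data, extend the stream, extend the word, next data bit, record -/
def bstep (e : Bool → σ) (s : Bs σ) : Bool ⊕ σ ⊕ σ ⊕ Bool → Bs σ
  | .inl b => ⟨s.x ++ [b], 0, s.h, s.w, s.S, s.n + 1⟩
  | .inr (.inl a) => ⟨s.x, s.k, s.h ++ [a], s.w, s.S, s.n + 1⟩
  | .inr (.inr (.inl a)) => ⟨s.x, s.k, s.h, s.w ++ [a], s.S, s.n + 1⟩
  | .inr (.inr (.inr false)) =>
      ⟨s.x, s.k + 1, s.h, s.w ++ ((s.x.map e).reverse[s.k]?).toList, s.S, s.n + 1⟩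
  | .inr (.inr (.inr true)) => ⟨s.x, 0, s.h, s.h, s.w :: s.S, s.n + 1⟩

/-- the tape of a state -/
def benc (Φ : σ → (ℕ → Γ) → ℕ → Γ) (γ : Γ) (acc : Set Γ) (e : Bool → σ) (s : Bs σ) (u : ℕ) :
    Prop × Option Bool × Option σ × Γ × Γ × Prop × Prop :=
  (u < s.x.length + 1, s.x[u]?, off s.k none (fun v => s.x[v]?.map e) u,
    off (s.x.length + 1) γ (run Φ (fun _ => γ) s.h) u,
    off (s.x.length + 1) γ (run Φ (fun _ => γ) s.w) u,
    off (s.x.length + 1) False (fun v => ∃ w ∈ s.S, run Φ (fun _ => γ) w v ∈ acc) u, u < s.n)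

lemma off_zero (γ : Γ) (ρ : ℕ → Γ) : off 0 γ ρ = ρ := by funext u; simp [off]

theorem exists_bstep [Finite σ] [Finite Γ] {Φ : σ → (ℕ → Γ) → ℕ → Γ} (hΦ : ∀ a, FS (Φ a))
    (γ : Γ) (acc : Set Γ) (e : Bool → σ) (a : Bool ⊕ σ ⊕ σ ⊕ Bool) :
    ∃ Ψ : (ℕ → Prop × Option Bool × Option σ × Γ × Γ × Prop × Prop) → ℕ →
      Prop × Option Bool × Option σ × Γ × Γ × Prop × Prop,
      FS Ψ ∧ ∀ s, Ψ (benc Φ γ acc e s) = benc Φ γ acc e (bstep e s a) := by
  have p1 := FS.pt fun c : Prop × Option Bool × Option σ × Γ × Γ × Prop × Prop => c.1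
  have p2 := FS.pt fun c : Prop × Option Bool × Option σ × Γ × Γ × Prop × Prop => c.2.1
  have p3 := FS.pt fun c : Prop × Option Bool × Option σ × Γ × Γ × Prop × Prop => c.2.2.1
  have p4 := FS.pt fun c : Prop × Option Bool × Option σ × Γ × Γ × Prop × Prop => c.2.2.2.1
  have p5 := FS.pt fun c : Prop × Option Bool × Option σ × Γ × Γ × Prop × Prop => c.2.2.2.2.1
  have p6 := FS.pt fun c : Prop × Option Bool × Option σ × Γ × Γ × Prop × Prop => c.2.2.2.2.2.1
  have p7 := (FS.pt fun c : Prop × Option Bool × Option σ × Γ × Γ × Prop × Prop =>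
    c.2.2.2.2.2.2).dl True
  have p8 := fun a : σ =>
    FS.pt fun _ : Prop × Option Bool × Option σ × Γ × Γ × Prop × Prop => some a
  obtain ⟨P, hP, sP⟩ := exists_offs hΦ
  rcases a with b | a | a | _ | _
  · obtain ⟨A, hA, sA⟩ := exists_app b
    refine ⟨_, (p1.dl True).pair ((hA.comp p2).pair (((hA.comp p2).map (Option.map e)).pair
      ((p4.dl γ).pair ((p5.dl γ).pair ((p6.dl False).pair p7))))), fun s => funext fun u => ?_⟩
    simp only [benc, bstep, post_dl, dl_off, off_zero, sA _ s.x fun _ _ => rfl,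
      List.length_append, List.length_singleton]
  · refine ⟨_, p1.pair (p2.pair (p3.pair ((hP.comp (p1.pair ((p8 a).pair p4))).pair
      (p5.pair (p6.pair p7))))), fun s => funext fun u => ?_⟩
    simp only [benc, bstep, post_dl, (sP _ _ _ fun _ => some a).2 a rfl, run_snoc]
  · refine ⟨_, p1.pair (p2.pair (p3.pair (p4.pair ((hP.comp (p1.pair ((p8 a).pair p5))).pair
      (p6.pair p7))))), fun s => funext fun u => ?_⟩
    simp only [benc, bstep, post_dl, (sP _ _ _ fun _ => some a).2 a rfl, run_snoc]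
  · refine ⟨_, p1.pair (p2.pair ((p3.dl none).pair (p4.pair ((hP.comp (p1.pair
      ((p3.dl none).pair p5))).pair (p6.pair p7))))), fun s => funext fun u => ?_⟩
    simp only [benc, bstep, post_dl, dl_off]
    rcases lt_or_ge s.k s.x.length with h | h
    · have h1 : s.k < (s.x.map e).reverse.length := by simpa using h
      rw [List.getElem?_eq_getElem h1, Option.toList_some, run_snoc,
        (sP _ _ _ _).2 (s.x.map e).reverse[s.k] (by
        rw [off, if_neg (by omega), List.getElem?_eq_getElem (by omega), List.getElem_reverse,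
          List.getElem_map, Option.map_some]
        congr 3
        simp only [List.length_map]
        omega)]
    · rw [List.getElem?_eq_none (l := (s.x.map e).reverse) (by simpa using h), Option.toList_none,
        List.append_nil, (sP _ _ _ _).1 fun u hu => by rw [off, if_pos (by omega)]]
  · refine ⟨_, p1.pair (p2.pair ((p2.map (Option.map e)).pair (p4.pair (p4.pair
      ((p6.map₂ (p1.pair p5) fun a b => (¬ b.1 ∧ b.2 ∈ acc) ∨ a).pair p7))))),
      fun s => funext fun u => ?_⟩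
    simp only [benc, bstep, post_dl, off_zero, List.mem_cons, exists_eq_or_imp]
    congr 6
    by_cases h : u < s.x.length + 1 <;> simp [off, h]

lemma bstep_n (e : Bool → σ) (l : List (Bool ⊕ σ ⊕ σ ⊕ Bool)) :
    ∀ s : Bs σ, (l.foldl (bstep e) s).n = s.n + l.length := by
  induction l with
  | nil => simp
  | cons a l ih =>
    intro s
    rw [List.foldl_cons, ih, List.length_cons]
    rcases a with b | a | a | _ | _ <;> simp only [bstep] <;> omega

theorem exists_batch [Finite σ] (N : OLCA σ) (e : Bool → σ) :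
    ∃ M : OLIA (Bool ⊕ σ ⊕ σ ⊕ Bool), (M.Time fun n => 4 * n) ∧ ∀ (l : List _) (s : Bs σ),
      s = l.foldl (bstep e) ⟨[], 0, [], [], [], 0⟩ → (l.reverse ∈ M.lang ↔
        ∃ w ∈ s.S, ∃ t, s.x.length + 1 + t < l.length ∧ N.AccAt w t) := by
  have := N.fin
  obtain ⟨Φ, hΦ, hN⟩ := N.sweep
  choose Ψ h1 h2 using exists_bstep hΦ none (some '' N.F) e
  have f := FS.pt fun _ : Unit => False
  have g := FS.pt fun _ : Unit => (none : Option N.Q)
  obtain ⟨K, hK⟩ := exists_olca ((f.dl True).pair ((FS.pt fun _ => (none : Option Bool)).pair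
    ((FS.pt fun _ => (none : Option σ)).pair (g.pair (g.pair (f.pair f)))))) h1
    {c | c.2.2.2.2.2.1 ∧ c.2.2.2.2.2.2}
  have h3 : ∀ l, run Ψ (benc Φ none (some '' N.F) e ⟨[], 0, [], [], [], 0⟩) l
      = benc Φ none (some '' N.F) e (l.foldl (bstep e) ⟨[], 0, [], [], [], 0⟩) := fun l => by
    induction l using List.reverseRecOn with
    | nil => rfl
    | append_singleton w a ih => rw [run_snoc, ih, h2, List.foldl_append]; rfl
  have h4 : (fun t : ℕ => (dl True (fun _ => False) t, (none : Option Bool), (none : Option σ),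
      (none : Option N.Q), (none : Option N.Q), False, False))
      = benc Φ none (some '' N.F) e ⟨[], 0, [], [], [], 0⟩ := by
    funext u; simp [benc, dl_zero, off]
  simp only [h4, h3, benc, Set.mem_ofPred_eq, bstep_n, zero_add, ← hN] at hK
  obtain ⟨M, hM⟩ := exists_rev K
  refine ⟨M, ?_, fun l s hs => ⟨?_, ?_⟩⟩
  · rintro w ⟨t, ht⟩
    refine ⟨t, ?_, ht⟩
    obtain ⟨u, rfl, hu⟩ := (hM w t).1 ht
    obtain ⟨-, v, rfl, -, hv⟩ := (hK _ _).1 hu
    simp only [List.length_reverse] at *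
    omega
  · rintro ⟨t, ht⟩
    obtain ⟨u, rfl, hu⟩ := (hM _ t).1 ht
    rw [List.reverse_reverse] at hu
    obtain ⟨-, v, rfl, a, hv⟩ := (hK _ _).1 hu
    rw [← hs, off] at a
    split_ifs at a with h
    obtain ⟨w, b, c⟩ := a
    exact ⟨w, b, _, by omega, c⟩
  · rintro ⟨w, a, t, b, c⟩
    refine ⟨_, (hM _ _).2 ⟨_, rfl, (List.reverse_reverse l).symm ▸ (hK l _).2
      ⟨by rintro rfl; simp at b, s.x.length + 1 + t, rfl, ?_, b⟩⟩⟩
    rw [← hs, off_add]
    exact ⟨w, a, c⟩

variable (e : Bool → σ)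

lemma b_data (x : List Bool) : (x.map Sum.inl).foldl (bstep e) ⟨[], 0, [], [], [], 0⟩
    = ⟨x, 0, [], [], [], x.length⟩ := by
  induction x using List.reverseRecOn with
  | nil => rfl
  | append_singleton x b ih => rw [List.map_append, List.foldl_append, ih]; simp [bstep]

lemma b_gen (p : List σ) (s : Bs σ) : (p.map fun a => .inr (.inl a)).foldl (bstep e) s
    = ⟨s.x, s.k, s.h ++ p, s.w, s.S, s.n + p.length⟩ := by
  induction p using List.reverseRecOn with
  | nil => simp
  | append_singleton p b ih =>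
    rw [List.map_append, List.foldl_append, ih]; simp [bstep, add_assoc]

lemma b_app (p : List σ) (s : Bs σ) : (p.map fun a => .inr (.inr (.inl a))).foldl (bstep e) s
    = ⟨s.x, s.k, s.h, s.w ++ p, s.S, s.n + p.length⟩ := by
  induction p using List.reverseRecOn with
  | nil => simp
  | append_singleton p b ih =>
    rw [List.map_append, List.foldl_append, ih]; simp [bstep, add_assoc]

lemma b_next (j : ℕ) (s : Bs σ) (hs : s.k = 0) :
    (List.replicate j (.inr (.inr (.inr false)))).foldl (bstep e) s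
      = ⟨s.x, j, s.h, s.w ++ (s.x.map e).reverse.take j, s.S, s.n + j⟩ := by
  induction j with
  | zero => cases s; simp_all
  | succ j ih =>
    rw [List.replicate_succ', List.foldl_append, ih, List.take_add_one]
    simp [bstep, add_assoc]

lemma b_all (m b : ℕ) (L : List (List Bool)) (hL : ∀ α ∈ L, α.length = b) :
    ∃ q : List (Bool ⊕ σ ⊕ σ ⊕ Bool), q.length = L.length * (m + b + 1) ∧
      ∀ s : Bs σ, s.k = 0 → s.w = s.h → s.x.length = m → (q.foldl (bstep e) s).x = s.x ∧
        ∀ w, w ∈ (q.foldl (bstep e) s).S ↔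
          w ∈ s.S ∨ ∃ α ∈ L, w = s.h ++ ((s.x ++ α).map e).reverse := by
  induction L with
  | nil => exact ⟨[], by simp, fun s _ _ _ => by simp⟩
  | cons α L ih =>
    obtain ⟨q, h1, h2⟩ := ih fun β h => hL β (List.mem_cons_of_mem _ h)
    refine ⟨((α.map e).reverse.map fun a => .inr (.inr (.inl a))) ++
      List.replicate m (.inr (.inr (.inr false))) ++ [.inr (.inr (.inr true))] ++ q, ?_,
      fun s a1 a2 a3 => ?_⟩
    · simp only [List.length_append, List.length_map, List.length_reverse, List.length_replicate,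
        List.length_cons, List.length_nil, h1, hL α List.mem_cons_self, add_mul]
      omega
    rw [List.foldl_append, List.foldl_append, List.foldl_append, b_app, b_next e m _ (by exact a1),
      List.take_of_length_le (by simp [a3])]
    simp only [List.foldl_cons, List.foldl_nil, bstep]
    obtain ⟨b1, b2⟩ := h2 ⟨s.x, 0, s.h, s.h,
      (s.w ++ (α.map e).reverse ++ (s.x.map e).reverse) :: s.S,
      s.n + (α.map e).reverse.length + m + 1⟩ rfl rfl a3
    refine ⟨b1, fun w => (b2 w).trans ?_⟩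
    simp only [List.mem_cons, exists_eq_or_imp, a2, List.map_append, List.reverse_append,
      List.append_assoc]
    tauto

lemma exists_words (b : ℕ) :
    ∃ L : List (List Bool), L.length = 2 ^ b ∧ ∀ α, α ∈ L ↔ α.length = b := by
  induction b with
  | zero => exact ⟨[[]], rfl, by simp⟩
  | succ b ih =>
    obtain ⟨L, h1, h2⟩ := ih
    refine ⟨L.map (false :: ·) ++ L.map (true :: ·), by simp [h1, pow_succ, mul_two], fun α => ?_⟩
    rcases α with _ | ⟨_ | _, α⟩ <;> simp [h2]

/-- a language decides `F` on the last `m` letters, after a word that depends only on `F` -/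
def Rl (L : Set (List σ)) (e : Bool → σ) (m n : ℕ) (F : List Bool → Prop) : Prop :=
  ∃ p : List σ, p.length + m ≤ n ∧
    ∀ x : List Bool, x.length = m → (p ++ (x.map e).reverse ∈ L ↔ F x)

theorem project [Finite σ] (N : OLCA σ) : ∃ M : OLIA (Bool ⊕ σ ⊕ σ ⊕ Bool),
    (M.Time fun n => 4 * n) ∧ ∀ (m b n t : ℕ) (F : List Bool → Prop),
      (∀ w ∈ N.lang, w.length ≤ n → ∃ u ≤ t, N.AccAt w u) → Rl N.lang e (m + b) n F →
      Rl M.lang Sum.inl m (n + 2 ^ b * (m + b + 1) + t + 2)
        fun x => ∃ α : List Bool, α.length = b ∧ F (x ++ α) := by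
  obtain ⟨M, h1, h2⟩ := exists_batch N e
  refine ⟨M, h1, fun m b n t F hT ⟨p, p1, p2⟩ => ?_⟩
  obtain ⟨L, l1, l2⟩ := exists_words b
  obtain ⟨q, q1, q2⟩ := b_all e m b L fun α h => (l2 α).1 h
  refine ⟨((p.map fun a => Sum.inr (Sum.inl a)) ++ [Sum.inr (Sum.inr (Sum.inr true))] ++ q ++
    (List.replicate (t + 1) (e false)).map fun a => Sum.inr (Sum.inl a)).reverse, ?_, fun x hx => ?_⟩
  · simp only [List.length_append, List.length_map, List.length_reverse, List.length_replicate,
      List.length_cons, List.length_nil, q1, l1]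
    omega
  rw [← List.reverse_append, h2 _ _ rfl]
  simp only [List.foldl_append, b_data, b_gen, List.foldl_cons, List.foldl_nil, bstep,
    List.nil_append]
  obtain ⟨a1, a2⟩ := q2 ⟨x, 0, p, p, [[]], x.length + p.length + 1⟩ rfl rfl hx
  simp only [a1, a2, List.mem_singleton, l2]
  constructor
  · rintro ⟨w, rfl | ⟨α, b1, rfl⟩, u, -, b2⟩
    · exact (N.not_acc_nil u b2).elim
    · exact ⟨α, b1, (p2 _ (by simp [hx, b1])).1 ⟨u, b2⟩⟩
  · rintro ⟨α, b1, b2⟩
    obtain ⟨u, c1, c2⟩ := hT _ ((p2 _ (by simp [hx, b1])).2 b2) (by simp; omega)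
    refine ⟨_, Or.inr ⟨α, b1, rfl⟩, u, ?_, c2⟩
    simp only [List.length_append, List.length_map, List.length_replicate, List.length_cons]
    omega

end Pool.Agent.P.MP_c1ff4a_lc
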