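import Pool.Agent.P.MP_c1ff4a_lc.SatA

/-! Fast simulations give small circuits for existential projections. -/

set_option autoImplicit false

open Classical

noncomputable section

namespace Pool.Agent.P.MP_c1ff4a_lc

/-- projections over `B` bits are decided with words of length `2 ^ (θ B)` times a polynomial -/
def Sth (θ : ℝ) (A : ℕ → Prop) : Prop :=
  ∃ (σ : Type) (_ : Finite σ) (M : OLIA σ) (e : Bool → σ) (D : ℕ), (M.Time fun n => 4 * n) ∧
    ∀ (m B : ℕ) (C : Circuit), A B → ∃ n : ℕ,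
      (n : ℝ) ≤ ((C.gates.length + m + B + 2 : ℕ) : ℝ) ^ D * 2 ^ (θ * B) ∧
      Rl M.lang e m n fun x => ∃ α : List Bool, α.length = B ∧ C.eval (x ++ α) = true

lemma Sth_zero : Sth 0 (· = 0) := by
  obtain ⟨M, h1, h2⟩ := exists_eval
  refine ⟨Ins, inferInstance, M, Sum.inl, 3, h1, ?_⟩
  rintro m _ C rfl
  obtain ⟨r, hr⟩ : ∃ r, r = C.gates.length + m := ⟨_, rfl⟩
  obtain ⟨w, w1, w2⟩ := exists_prog r C.gates
  refine ⟨2 * (r + 2) ^ 2, ?_, (w ++ mv (min C.out r) ++ [(.inr 4 : Ins)]).reverse, ?_,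
    fun x hx => ?_⟩
  · rw [zero_mul, Real.rpow_zero, mul_one, add_zero, ← hr, pow_succ' _ 2]
    exact_mod_cast Nat.mul_le_mul_right _ (by omega)
  · have := min_le_right C.out r
    simp only [List.length_reverse, List.length_append, mv, List.length_cons,
      List.length_replicate, List.length_nil]
    nlinarith
  rw [← List.reverse_append, h2 _ (by simp)]
  have h3 : (wires C.gates x).length ≤ r := by rw [wires_length]; omega
  have h4 := w2 ((x.map Sum.inl).foldl stp ([], 0, 0, False)) (by rw [bits_spec]; omega)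
  simp only [List.foldl_append, mv_spec, List.foldl_cons, List.foldl_nil, stp, true_and,
    h4, bits_spec, getD_min _ h3, List.length_eq_zero_iff, exists_eq_left, List.append_nil,
    Circuit.eval]

lemma exists_pow_ge (K : ℝ) : ∃ k : ℕ, ∀ z : ℝ, 2 ≤ z → K ≤ z ^ k := by
  obtain ⟨k, hk⟩ := pow_unbounded_of_one_lt K (one_lt_two (α := ℝ))
  exact ⟨k, fun z hz => hk.le.trans (pow_le_pow_left₀ (by norm_num) hz k)⟩

variable {c : ℝ}

/-- the time of the simulating array -/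
lemma time_bd (hc : 1 ≤ c) {σ : Type} {N : OLCA σ} {K : ℝ}
    (hT : N.Time fun n => ⌊K * (n : ℝ) ^ c⌋₊) (D : ℕ) : ∃ D' : ℕ, ∀ (n : ℕ) (z y : ℝ), 2 ≤ z →
      (n : ℝ) ≤ z ^ D * 2 ^ y → ∃ t : ℕ, (t : ℝ) ≤ z ^ D' * 2 ^ (c * y) ∧
        ∀ w ∈ N.lang, w.length ≤ n → ∃ u ≤ t, N.AccAt w u := by
  obtain ⟨k, hk⟩ := exists_pow_ge |K|
  refine ⟨k + D * ⌈c⌉₊, fun n z y hz hn => ⟨⌊|K| * (n : ℝ) ^ c⌋₊, ?_, fun w hw h => ?_⟩⟩
  · refine (Nat.floor_le (by positivity)).trans ?_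
    rw [pow_add, mul_assoc]
    refine mul_le_mul (hk z hz) ((Real.rpow_le_rpow (by positivity) hn (by linarith)).trans ?_)
      (by positivity) (by positivity)
    rw [Real.mul_rpow (by positivity) (by positivity), ← Real.rpow_mul (by norm_num), mul_comm y,
      pow_mul, ← Real.rpow_natCast _ ⌈c⌉₊]
    exact mul_le_mul_of_nonneg_right (Real.rpow_le_rpow_of_exponent_le
      (one_le_pow₀ (by linarith)) (Nat.le_ceil c)) (by positivity)
  · obtain ⟨u, h1, h2⟩ := hT w hw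
    refine ⟨u, h1.trans (Nat.floor_mono ?_), h2⟩
    exact mul_le_mul (le_abs_self K) (Real.rpow_le_rpow (by positivity) (by exact_mod_cast h)
      (by linarith)) (by positivity) (abs_nonneg K)

variable (H : ∀ (σ : Type) [Finite σ] (M : OLIA σ), (M.Time fun n => 4 * n) →
  ∃ (N : OLCA σ) (K : ℝ), N.lang = M.lang ∧ N.Time fun n => ⌊K * (n : ℝ) ^ c⌋₊)

include H

lemma Sth.step (hc : 1 ≤ c) {θ θ' : ℝ} {A : ℕ → Prop} (h : Sth θ A) (h0 : 0 ≤ θ) (h1 : 0 ≤ θ')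
    (h2 : θ' ≤ 1) (h3 : c * θ * (1 - θ') ≤ θ') (hA : ∀ B : ℕ, A (B - ⌈θ' * B⌉₊)) :
    Sth θ' fun _ => True := by
  obtain ⟨σ, _, M, e, D, a1, a2⟩ := h
  obtain ⟨N, K, b1, b2⟩ := H σ M a1
  obtain ⟨M', c1, c2⟩ := project e N
  obtain ⟨D', d1⟩ := time_bd hc b2 D
  refine ⟨_, inferInstance, M', Sum.inl, D + D' + 1 + 3, c1, fun m B C _ => ?_⟩
  obtain ⟨b, hb⟩ : ∃ b, b = ⌈θ' * B⌉₊ := ⟨_, rfl⟩
  have hB0 : (0 : ℝ) ≤ B := Nat.cast_nonneg _
  have e1 : b ≤ B := hb ▸ Nat.ceil_le.2 (by nlinarith)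
  have e2 : θ' * B ≤ b := hb ▸ Nat.le_ceil _
  have e3 : (b : ℝ) ≤ θ' * B + 1 := hb ▸ (Nat.ceil_lt_add_one (by positivity)).le
  obtain ⟨n, f1, f2⟩ := a2 (m + b) (B - b) C (hb ▸ hA B)
  rw [show C.gates.length + (m + b) + (B - b) + 2 = C.gates.length + m + B + 2 by omega] at f1
  obtain ⟨z, hz⟩ : ∃ z : ℝ, z = (C.gates.length + m + B + 2 : ℕ) := ⟨_, rfl⟩
  have z2 : 2 ≤ z := by rw [hz]; exact_mod_cast (by omega)
  have z3 : ((m + b + 1 : ℕ) : ℝ) ≤ z := by rw [hz]; exact_mod_cast (by omega)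
  rw [← hz] at f1 ⊢
  obtain ⟨t, g1, g2⟩ := d1 n z _ z2 f1
  obtain ⟨p, p1, p2⟩ := c2 m b n t _ g2 (b1 ▸ f2)
  refine ⟨_, ?_, p, p1, fun x hx => (p2 x hx).trans ⟨?_, ?_⟩⟩
  · have y0 : (0 : ℝ) ≤ θ * (B - b : ℕ) := by positivity
    have y1 : c * (θ * (B - b : ℕ)) ≤ θ' * B := by
      rw [Nat.cast_sub e1]
      nlinarith [mul_le_mul_of_nonneg_right h3 hB0,
        mul_le_mul_of_nonneg_left e2 (show 0 ≤ c * θ by positivity)]
    have y2 := Real.rpow_le_rpow_of_exponent_le one_le_two y1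
    have y3 := Real.rpow_le_rpow_of_exponent_le one_le_two
      (show θ * (B - b : ℕ) ≤ θ' * B by nlinarith)
    have y4 : (2 : ℝ) ^ b ≤ 2 ^ (θ' * B) * 2 := by
      rw [← Real.rpow_add_one two_ne_zero, ← Real.rpow_natCast]
      exact Real.rpow_le_rpow_of_exponent_le one_le_two e3
    have y5 : (1 : ℝ) ≤ 2 ^ (θ' * B) := Real.one_le_rpow one_le_two (by positivity)
    generalize (2 : ℝ) ^ (θ' * B) = E at *
    have z1 : 1 ≤ z := by linarith
    have u1 := pow_le_pow_right₀ z1 (show D ≤ D + D' + 1 by omega)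
    have u2 := pow_le_pow_right₀ z1 (show D' ≤ D + D' + 1 by omega)
    have u3 := pow_le_pow_right₀ z1 (show 1 ≤ D + D' + 1 by omega)
    have u4 := pow_le_pow_left₀ (by norm_num) z2 3
    rw [pow_one] at u3
    have v1 := f1.trans (mul_le_mul u1 y3 (by positivity) (by positivity))
    have v2 := g1.trans (mul_le_mul u2 y2 (by positivity) (by positivity))
    have v3 := mul_le_mul y4 (z3.trans u3) (by positivity) (by positivity)
    have v4 := mul_le_mul (z2.trans u3) y5 (by norm_num) (by positivity)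
    have v5 := mul_le_mul_of_nonneg_left u4 (show 0 ≤ z ^ (D + D' + 1) * E by positivity)
    rw [pow_add _ _ 3, Nat.cast_add, Nat.cast_add, Nat.cast_add, Nat.cast_mul, Nat.cast_pow]
    push_cast at v3 ⊢
    nlinarith
  · rintro ⟨α, a, β, a', k⟩
    exact ⟨α ++ β, by simp; omega, by rwa [← List.append_assoc]⟩
  · rintro ⟨γ, a, k⟩
    exact ⟨γ.take b, by simp; omega, γ.drop b, by simp; omega, by
      rwa [List.append_assoc, List.take_append_drop]⟩

lemma Sth_small (hc : 1 ≤ c) {ε : ℝ} (h0 : 0 < ε) (h1 : ε ≤ 1) :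
    Sth ((c - 1 + ε) / c) fun _ => True := by
  obtain ⟨τ, hτ⟩ : ∃ τ, τ = (c - 1 + ε) / c := ⟨_, rfl⟩
  have t0 : c * τ = c - 1 + ε := by rw [hτ]; field_simp
  have t1 : 0 < τ := by rw [hτ]; exact div_pos (by linarith) (by linarith)
  have t2 : τ ≤ 1 := by rw [hτ, div_le_one (by linarith)]; linarith
  obtain ⟨η, hη⟩ : ∃ η, η = τ * ε / (1 + c) := ⟨_, rfl⟩
  have n0 : η * (1 + c) = τ * ε := by rw [hη]; field_simp
  have n1 : 0 < η := by rw [hη]; positivity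
  have key : ∀ j : ℕ, Sth (max τ (1 - j * η)) fun _ => True := fun j => by
    induction j with
    | zero =>
      rw [Nat.cast_zero, zero_mul, sub_zero, max_eq_right t2]
      exact Sth_zero.step H hc le_rfl zero_le_one le_rfl (by simp) (by simp)
    | succ j ih =>
      have a1 := le_max_left τ (1 - j * η)
      have a2 : max τ (1 - j * η) ≤ 1 := max_le t2 (by
        have : 0 ≤ j * η := by positivity
        linarith)
      have a3 : max τ (1 - j * η) - η ≤ max τ (1 - (j + 1 : ℕ) * η) := by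
        rw [sub_le_iff_le_add, ← max_add_add_right]
        exact max_le_max (by linarith) (by push_cast; linarith)
      have a4 : max τ (1 - (j + 1 : ℕ) * η) ≤ 1 := max_le t2 (by
        have : 0 ≤ (j + 1 : ℕ) * η := by positivity
        linarith)
      refine ih.step H hc (t1.le.trans a1) (t1.le.trans (le_max_left _ _)) a4 ?_ fun _ => trivial
      generalize max τ (1 - j * η) = θ at *
      generalize max τ (1 - (j + 1 : ℕ) * η) = θ' at *
      have b0 : 0 ≤ c * θ := by nlinarith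
      have b1 : τ * ε ≤ θ * (1 - c + c * θ) :=
        mul_le_mul a1 (by nlinarith) h0.le (by linarith)
      nlinarith [mul_le_mul_of_nonneg_left a3 b0,
        mul_le_mul_of_nonneg_left a2 (show 0 ≤ c * η by positivity)]
  obtain ⟨j, hj⟩ := exists_nat_ge (1 / η)
  have := key j
  rw [div_le_iff₀ n1] at hj
  rwa [max_eq_left (by linarith), hτ] at this

theorem sat_transfer (hc : 1 ≤ c) {ε : ℝ} (hε : 0 < ε) : ∃ D : ℕ, ∀ (m B : ℕ) (C : Circuit),
    ∃ C' : Circuit, (C'.gates.length : ℝ)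
        ≤ ((C.gates.length + m + B + 2 : ℕ) : ℝ) ^ D * 2 ^ ((c - 1 + ε) * B) ∧
      ∀ x : List Bool, x.length = m →
        (C'.eval x = true ↔ ∃ α : List Bool, α.length = B ∧ C.eval (x ++ α) = true) := by
  obtain ⟨σ, _, M, e, D, a1, a2⟩ := Sth_small H hc (lt_min hε one_pos) (min_le_right ε 1)
  obtain ⟨N, K, b1, b2⟩ := H σ M a1
  obtain ⟨D', d1⟩ := time_bd hc b2 D
  obtain ⟨K₀, k1⟩ := cascade N e
  obtain ⟨k, hk⟩ := exists_pow_ge (K₀ * 3 * (D' + ⌈c⌉₊ + 2 : ℕ))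
  refine ⟨k + D' + 2, fun m B C => ?_⟩
  obtain ⟨n, f1, p, p1, p2⟩ := a2 m B C trivial
  obtain ⟨z, hz⟩ : ∃ z, z = C.gates.length + m + B + 2 := ⟨_, rfl⟩
  rw [← hz] at f1 ⊢
  have z2 : (2 : ℝ) ≤ z := by exact_mod_cast (by omega)
  obtain ⟨t, g1, g2⟩ := d1 n z _ z2 f1
  have hB0 : (0 : ℝ) ≤ B := Nat.cast_nonneg _
  have m0 := lt_min hε one_pos
  rw [← mul_assoc, mul_div_cancel₀ _ (by linarith)] at g1
  have g3 : t + 1 ≤ 2 ^ (z * (D' + ⌈c⌉₊) + 1) := by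
    have u1 : (z : ℝ) ^ D' ≤ (2 ^ z) ^ D' :=
      pow_le_pow_left₀ (by positivity) (by exact_mod_cast Nat.lt_two_pow_self.le) _
    have u2 : (2 : ℝ) ^ ((c - 1 + min ε 1) * B) ≤ 2 ^ (z * ⌈c⌉₊) := by
      rw [← Real.rpow_natCast]
      refine Real.rpow_le_rpow_of_exponent_le one_le_two ?_
      rw [Nat.cast_mul, mul_comm (z : ℝ)]
      exact mul_le_mul (by linarith [min_le_right ε 1, Nat.le_ceil c])
        (by exact_mod_cast (by omega)) hB0 (Nat.cast_nonneg _)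
    have u3 := g1.trans (mul_le_mul u1 u2 (by positivity) (by positivity))
    rw [← pow_mul, ← pow_add, ← mul_add] at u3
    have u4 : t ≤ 2 ^ (z * (D' + ⌈c⌉₊)) := by exact_mod_cast u3
    have := Nat.one_le_two_pow (n := z * (D' + ⌈c⌉₊))
    rw [pow_succ]
    omega
  obtain ⟨C', c1, -, c3⟩ := k1 m t _ p g3
  refine ⟨C', ?_, fun x hx => (c3 x hx).trans (Iff.trans ⟨fun ⟨u, _, h⟩ => b1 ▸ ⟨u, h⟩, fun h =>
    g2 _ (b1 ▸ h) (by simp; omega)⟩ (p2 x hx))⟩
  have y1 : (2 : ℝ) ^ ((c - 1 + min ε 1) * B) ≤ 2 ^ ((c - 1 + ε) * B) :=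
    Real.rpow_le_rpow_of_exponent_le one_le_two
      (mul_le_mul_of_nonneg_right (by linarith [min_le_left ε 1]) hB0)
  have y2 : (1 : ℝ) ≤ 2 ^ ((c - 1 + ε) * B) :=
    Real.one_le_rpow one_le_two (mul_nonneg (by linarith) hB0)
  have y3 : (1 : ℝ) ≤ (z : ℝ) ^ D' := one_le_pow₀ (by linarith)
  have y4 := g1.trans (mul_le_mul_of_nonneg_left y1 (by positivity))
  generalize (2 : ℝ) ^ ((c - 1 + ε) * B) = E at *
  have y5 : (t : ℝ) + 2 ≤ 3 * ((z : ℝ) ^ D' * E) := by nlinarith [mul_le_mul y3 y2 zero_le_one]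
  have y6 : C'.gates.length ≤ K₀ * z * (t + 2) * (z * (D' + ⌈c⌉₊ + 2)) :=
    c1.trans (Nat.mul_le_mul (Nat.mul_le_mul_right _ (Nat.mul_le_mul_left _ (by omega)))
      (by rw [mul_add z _ 2]; omega))
  calc (C'.gates.length : ℝ) ≤ K₀ * z * (t + 2) * (z * (D' + ⌈c⌉₊ + 2 : ℕ)) := by exact_mod_cast y6
    _ ≤ K₀ * z * (3 * ((z : ℝ) ^ D' * E)) * (z * (D' + ⌈c⌉₊ + 2 : ℕ)) := by gcongr
    _ = K₀ * 3 * (D' + ⌈c⌉₊ + 2 : ℕ) * ((z : ℝ) ^ (D' + 2) * E) := by ring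
    _ ≤ (z : ℝ) ^ k * ((z : ℝ) ^ (D' + 2) * E) :=
        mul_le_mul_of_nonneg_right (hk z z2) (by positivity)
    _ = _ := by ring

end Pool.Agent.P.MP_c1ff4a_lc
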